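import Pool.Agent.D0H51.BD.Sm
import Pool.Agent.Y749.Rig.Win

/-! # Comparison of an interval and of a tent with their smoothed versions -/

set_option autoImplicit false

open MeasureTheory Set Filter Topology

namespace Pool.Agent.D0H51.BD

open Pool.Agent.Y749.Rig

/-- the kernel -/
noncomputable def KK (x : ℝ) : ℝ := fl τ x

lemma KK_cont : Continuous KK := fl_cont τ_adm.int

lemma KK_even (x : ℝ) : KK (-x) = KK x := fl_even x

lemma KK_int : Integrable KK := fl_int τ_adm

lemma KK_one : ∫ x, KK x = 1 := by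
  have h := int_fl τ_adm
  rw [τ_one (by simp)] at h
  exact h

lemma KK_dec : ∃ B : ℝ, 0 < B ∧ ∀ x, |KK x| * (1 + x ^ 2) ^ 3 ≤ B := by
  obtain ⟨B0, hB0, h0⟩ := τ_dec 0
  obtain ⟨B6, hB6, h6⟩ := τ_dec 6
  refine ⟨4 * (B0 + B6), by positivity, fun x => ?_⟩
  have h1 := h0 x
  have h2 := h6 x
  rw [pow_zero, one_mul] at h1
  have e6 : |x| ^ 6 = (x ^ 2) ^ 3 := by
    rw [← pow_mul]
    exact Even.pow_abs (by decide) x
  rw [e6] at h2
  have h3 : (1 + x ^ 2) ^ 3 ≤ 4 * (1 + (x ^ 2) ^ 3) := by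
    nlinarith [mul_nonneg (sq_nonneg (1 - x ^ 2)) (show (0 : ℝ) ≤ 1 + x ^ 2 by positivity)]
  calc |KK x| * (1 + x ^ 2) ^ 3 ≤ |KK x| * (4 * (1 + (x ^ 2) ^ 3)) := by gcongr
    _ = 4 * (|fl τ x| + (x ^ 2) ^ 3 * |fl τ x|) := by unfold KK; ring
    _ ≤ _ := by gcongr

lemma KK_mom : Integrable fun u => (1 + |u|) * (1 + u ^ 2) * |KK u| := by
  obtain ⟨B, hB, h⟩ := KK_dec
  refine (int_inv.const_mul (2 * B)).mono' ?_ (ae_of_all _ fun u => ?_)
  · have := KK_cont
    apply Continuous.aestronglyMeasurable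
    fun_prop
  · rw [Real.norm_eq_abs, abs_of_nonneg (by positivity), mul_one_div, le_div_iff₀ (by positivity)]
    have h1 := h u
    have h2 : 1 + |u| ≤ 2 * (1 + u ^ 2) := by nlinarith [sq_nonneg (|u| - 1), sq_abs u]
    calc (1 + |u|) * (1 + u ^ 2) * |KK u| * (1 + u ^ 2) ≤
          2 * (1 + u ^ 2) * (1 + u ^ 2) * |KK u| * (1 + u ^ 2) := by gcongr
      _ = 2 * (|KK u| * (1 + u ^ 2) ^ 3) := by ring
      _ ≤ 2 * B := by gcongr

/-- the moment -/
noncomputable def MM : ℝ := ∫ u, (1 + |u|) * (1 + u ^ 2) * |KK u|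

lemma MM_nonneg : 0 ≤ MM := integral_nonneg fun u => by positivity

lemma mul_KK_int {w : ℝ → ℝ} (hw : Measurable w) {c : ℝ}
    (hb : ∀ u, |w u| ≤ c * ((1 + |u|) * (1 + u ^ 2))) : Integrable fun u => w u * KK u := by
  refine (KK_mom.const_mul c).mono' ?_ (ae_of_all _ fun u => ?_)
  · exact (hw.mul KK_cont.measurable).aestronglyMeasurable
  · rw [norm_mul, Real.norm_eq_abs, Real.norm_eq_abs]
    calc |w u| * |KK u| ≤ c * ((1 + |u|) * (1 + u ^ 2)) * |KK u| := by gcongr; exact hb u
      _ = _ := by ring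

lemma mul_KK_le {w : ℝ → ℝ} (hw : Measurable w) {c : ℝ}
    (hb : ∀ u, |w u| ≤ c * ((1 + |u|) * (1 + u ^ 2))) : |∫ u, w u * KK u| ≤ c * MM := by
  unfold MM
  rw [← integral_const_mul, ← Real.norm_eq_abs]
  refine (norm_integral_le_integral_norm _).trans ?_
  refine integral_mono_of_nonneg (ae_of_all _ fun u => norm_nonneg _) (KK_mom.const_mul c)
    (ae_of_all _ fun u => ?_)
  simp only
  rw [norm_mul, Real.norm_eq_abs, Real.norm_eq_abs]
  calc |w u| * |KK u| ≤ c * ((1 + |u|) * (1 + u ^ 2)) * |KK u| := by gcongr; exact hb u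
    _ = _ := by ring

/-- the interval -/
noncomputable def ind (a x : ℝ) : ℝ := (Icc (-a) a).indicator (fun _ => (1 : ℝ)) x

lemma ind_meas (a : ℝ) : Measurable (ind a) := measurable_const.indicator measurableSet_Icc

lemma ind_le (a x : ℝ) : |ind a x| ≤ 1 := by
  unfold ind
  by_cases h : x ∈ Icc (-a) a
  · rw [indicator_of_mem h]; simp
  · rw [indicator_of_notMem h]; simp

lemma frac_one {y u : ℝ} (h : |y| ≤ |u|) : 1 ≤ (1 + u ^ 2) / (1 + y ^ 2) := by
  rw [one_le_div (by positivity)]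
  have := pow_le_pow_left₀ (abs_nonneg y) h 2
  rw [sq_abs, sq_abs] at this
  linarith

lemma ind_diff (a x u : ℝ) : |ind a (x - u) - ind a x| ≤
    (1 + u ^ 2) / (1 + (x - a) ^ 2) + (1 + u ^ 2) / (1 + (x + a) ^ 2) := by
  have p1 : 0 ≤ (1 + u ^ 2) / (1 + (x - a) ^ 2) := by positivity
  have p2 : 0 ≤ (1 + u ^ 2) / (1 + (x + a) ^ 2) := by positivity
  unfold ind
  by_cases h1 : x ∈ Icc (-a) a <;> by_cases h2 : x - u ∈ Icc (-a) a
  · rw [indicator_of_mem h1, indicator_of_mem h2, sub_self, abs_zero]; linarith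
  · rw [indicator_of_mem h1, indicator_of_notMem h2, zero_sub, abs_neg, abs_one]
    rw [mem_Icc, not_and_or, not_le, not_le] at h2
    rcases h2 with h2 | h2
    · have : |x + a| ≤ |u| := by
        rw [abs_of_nonneg (by linarith [h1.1])]
        exact le_trans (by linarith) (le_abs_self u)
      linarith [frac_one this]
    · have : |x - a| ≤ |u| := by
        rw [abs_of_nonpos (by linarith [h1.2])]
        exact le_trans (by linarith) (neg_le_abs u)
      linarith [frac_one this]
  · rw [indicator_of_notMem h1, indicator_of_mem h2, sub_zero, abs_one]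
    rw [mem_Icc, not_and_or, not_le, not_le] at h1
    rcases h1 with h1 | h1
    · have : |x + a| ≤ |u| := by
        rw [abs_of_nonpos (by linarith)]
        exact le_trans (by linarith [h2.1]) (neg_le_abs u)
      linarith [frac_one this]
    · have : |x - a| ≤ |u| := by
        rw [abs_of_nonneg (by linarith)]
        exact le_trans (by linarith [h2.2]) (le_abs_self u)
      linarith [frac_one this]
  · rw [indicator_of_notMem h1, indicator_of_notMem h2, sub_self, abs_zero]; linarith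

/-- the smoothed interval -/
lemma ind_err {a : ℝ} (ha : 0 ≤ a) (x : ℝ) :
    |fl (fun α => τ α * wg (fun _ => 1) a α) x - ind a x| ≤
      MM * (1 / (1 + (x - a) ^ 2) + 1 / (1 + (x + a) ^ 2)) := by
  rw [fl_wg τ_adm continuous_const (fun _ => rfl) (G := 1) (fun _ => by simp) ha]
  have e1 : ∫ s in (-a)..a, 1 * fl τ (x + s) = ∫ u, ind a (x - u) * KK u := by
    have h1 : ∫ s in (-a)..a, 1 * fl τ (x + s) = ∫ u in (x - a)..(x + a), KK u := by
      have h2 := intervalIntegral.integral_comp_add_left (a := -a) (b := a) KK x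
      simp only [one_mul]
      rw [show x + -a = x - a by ring] at h2
      exact h2
    rw [h1, intervalIntegral.integral_of_le (by linarith), ← integral_Icc_eq_integral_Ioc,
      ← integral_indicator measurableSet_Icc]
    refine integral_congr_ae (ae_of_all _ fun u => ?_)
    simp only
    unfold ind
    by_cases hu : u ∈ Icc (x - a) (x + a)
    · rw [indicator_of_mem hu, indicator_of_mem, one_mul]
      exact ⟨by linarith [hu.2], by linarith [hu.1]⟩
    · rw [indicator_of_notMem hu, indicator_of_notMem, zero_mul]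
      intro hx
      exact hu ⟨by linarith [hx.2], by linarith [hx.1]⟩
  have hm : Measurable fun u => ind a (x - u) := (ind_meas a).comp (measurable_const.sub measurable_id)
  have hi1 : Integrable fun u => ind a (x - u) * KK u :=
    mul_KK_int hm (c := 1) fun u => by
      rw [one_mul]
      refine (ind_le a _).trans ?_
      have := abs_nonneg u
      nlinarith [sq_nonneg u, mul_nonneg this (sq_nonneg u)]
  have e2 : ind a x = ∫ u, ind a x * KK u := by
    rw [integral_const_mul, KK_one, mul_one]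
  rw [e1]
  conv_lhs => rw [e2]
  rw [← integral_sub hi1 (KK_int.const_mul _)]
  have e3 : ∫ u, (ind a (x - u) * KK u - ind a x * KK u) = ∫ u, (ind a (x - u) - ind a x) * KK u :=
    integral_congr_ae (ae_of_all _ fun u => by simp only; ring)
  rw [e3, mul_comm MM]
  refine mul_KK_le (hm.sub measurable_const) fun u => ?_
  refine (ind_diff a x u).trans ?_
  have e4 : (1 + u ^ 2) / (1 + (x - a) ^ 2) + (1 + u ^ 2) / (1 + (x + a) ^ 2) =
      (1 / (1 + (x - a) ^ 2) + 1 / (1 + (x + a) ^ 2)) * (1 + u ^ 2) := by ring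
  rw [e4]
  have h5 : 1 + u ^ 2 ≤ (1 + |u|) * (1 + u ^ 2) := by
    have := abs_nonneg u
    nlinarith [sq_nonneg u, mul_nonneg this (sq_nonneg u)]
  gcongr

/-- the tent -/
noncomputable def tt (A x : ℝ) : ℝ := max 0 (1 - |x| / A)

lemma tt_cont (A : ℝ) : Continuous (tt A) := by unfold tt; fun_prop

lemma tt_even (A x : ℝ) : tt A (-x) = tt A x := by unfold tt; rw [abs_neg]

lemma tt_nonneg (A x : ℝ) : 0 ≤ tt A x := le_max_left _ _

lemma tt_le {A : ℝ} (hA : 0 < A) (x : ℝ) : |tt A x| ≤ 1 := by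
  rw [abs_of_nonneg (tt_nonneg A x)]
  unfold tt
  apply max_le (by norm_num)
  have : 0 ≤ |x| / A := by positivity
  linarith

lemma tt_zero {A : ℝ} (hA : 0 < A) {x : ℝ} (hx : A ≤ |x|) : tt A x = 0 := by
  unfold tt
  apply max_eq_left
  have : 1 ≤ |x| / A := by rwa [one_le_div hA]
  linarith

lemma tt_eq {A : ℝ} (hA : 0 < A) (x : ℝ) :
    tt A x = (|x + A| + |x - A| - 2 * |x|) / (2 * A) := by
  unfold tt
  rw [eq_div_iff (by positivity)]
  rcases le_total 0 x with h0 | h0
  · rw [abs_of_nonneg h0, abs_of_nonneg (by linarith : 0 ≤ x + A)]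
    rcases le_total x A with h1 | h1
    · rw [abs_of_nonpos (by linarith : x - A ≤ 0), max_eq_right]
      · field_simp; ring
      · have : x / A ≤ 1 := by rwa [div_le_one hA]
        linarith
    · rw [abs_of_nonneg (by linarith : 0 ≤ x - A), max_eq_left]
      · ring
      · have : 1 ≤ x / A := by rwa [one_le_div hA]
        linarith
  · rw [abs_of_nonpos h0, abs_of_nonpos (by linarith : x - A ≤ 0)]
    rcases le_total (-x) A with h1 | h1
    · rw [abs_of_nonneg (by linarith : 0 ≤ x + A), max_eq_right]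
      · field_simp; ring
      · have : -x / A ≤ 1 := by rwa [div_le_one hA]
        linarith
    · rw [abs_of_nonpos (by linarith : x + A ≤ 0), max_eq_left]
      · ring
      · have : 1 ≤ -x / A := by rwa [one_le_div hA]
        linarith

/-- the sign -/
noncomputable def sg (y : ℝ) : ℝ := if 0 ≤ y then 1 else -1

lemma abs_taylor (y u : ℝ) : |(|y - u| - |y| + sg y * u)| ≤
    2 * (|u| * (1 + u ^ 2) / (1 + y ^ 2)) := by
  have hu := abs_nonneg u
  have hp : 0 ≤ 2 * (|u| * (1 + u ^ 2) / (1 + y ^ 2)) := by positivity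
  rcases le_or_gt |y| |u| with h | h
  · have h1 := frac_one h
    have h2 : |(|y - u| - |y|)| ≤ |u| := by
      have := abs_abs_sub_abs_le_abs_sub (y - u) y
      rwa [show y - u - y = -u by ring, abs_neg] at this
    have h3 : |sg y * u| ≤ |u| := by
      unfold sg
      split_ifs <;> simp
    have h4 : 2 * |u| ≤ 2 * (|u| * (1 + u ^ 2) / (1 + y ^ 2)) := by
      rw [mul_div_assoc]
      nlinarith
    exact (abs_add_le _ _).trans (by linarith)
  · have : |y - u| - |y| + sg y * u = 0 := by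
      unfold sg
      split_ifs with h0
      · rw [abs_of_nonneg h0] at h ⊢
        have := le_abs_self u
        rw [abs_of_nonneg (by linarith)]
        ring
      · push Not at h0
        rw [abs_of_neg h0] at h ⊢
        have := neg_abs_le u
        rw [abs_of_nonpos (by linarith)]
        ring
    rw [this, abs_zero]
    exact hp

lemma KK_odd : ∫ u, u * KK u = 0 := by
  apply int_zero_of_odd
  intro x
  rw [KK_even]; ring

/-- the smoothed tent -/
lemma tt_err {A : ℝ} (hA : 0 < A) (x : ℝ) :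
    |fl (fun α => τ α * wg (tt A) A α) x - tt A x| ≤
      MM / A * (1 / (1 + (x + A) ^ 2) + 1 / (1 + (x - A) ^ 2) + 2 * (1 / (1 + x ^ 2))) := by
  rw [fl_wg τ_adm (tt_cont A) (tt_even A) (tt_le hA) hA.le]
  have e1 : ∫ s in (-A)..A, tt A s * fl τ (x + s) = ∫ u, tt A (x - u) * KK u := by
    have h1 : ∫ s in (-A)..A, tt A s * fl τ (x + s) = ∫ s, tt A s * fl τ (x + s) := by
      rw [intervalIntegral.integral_of_le (by linarith),
        setIntegral_eq_integral_of_forall_compl_eq_zero]
      intro s hs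
      have : A ≤ |s| := by
        by_contra hcon
        push Not at hcon
        have := abs_lt.1 hcon
        exact hs ⟨this.1, this.2.le⟩
      rw [tt_zero hA this, zero_mul]
    rw [h1]
    have h2 := integral_sub_right_eq_self (μ := volume) (fun s => tt A s * fl τ (x + s)) x
    rw [← h2]
    refine integral_congr_ae (ae_of_all _ fun u => ?_)
    simp only
    rw [← tt_even A (x - u), neg_sub, show x + (u - x) = u by ring]
    rfl
  have hm : Measurable fun u => tt A (x - u) :=
    ((tt_cont A).comp (continuous_const.sub continuous_id)).measurable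
  have hbig : ∀ u : ℝ, (1 : ℝ) ≤ (1 + |u|) * (1 + u ^ 2) := fun u => by
    have := abs_nonneg u
    nlinarith [sq_nonneg u, mul_nonneg this (sq_nonneg u)]
  have hbig2 : ∀ u : ℝ, |u| * (1 + u ^ 2) ≤ (1 + |u|) * (1 + u ^ 2) := fun u => by
    have := abs_nonneg u
    nlinarith [sq_nonneg u]
  have hbig3 : ∀ u : ℝ, |u| ≤ (1 + |u|) * (1 + u ^ 2) := fun u => by
    have := abs_nonneg u
    nlinarith [sq_nonneg u, mul_nonneg this (sq_nonneg u)]
  have hi1 : Integrable fun u => tt A (x - u) * KK u :=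
    mul_KK_int hm (c := 1) fun u => by
      rw [one_mul]
      exact (tt_le hA _).trans (hbig u)
  obtain ⟨c, hc⟩ : ∃ c : ℝ, c = (sg (x + A) + sg (x - A) - 2 * sg x) / (2 * A) := ⟨_, rfl⟩
  have hi2 : Integrable fun u => c * u * KK u :=
    mul_KK_int (measurable_const.mul measurable_id) (c := |c|) fun u => by
      rw [abs_mul]
      exact mul_le_mul_of_nonneg_left (hbig3 u) (abs_nonneg c)
  have e2 : tt A x = ∫ u, tt A x * KK u := by
    rw [integral_const_mul, KK_one, mul_one]
  have e0 : ∫ u, c * u * KK u = 0 := by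
    have : ∀ u, c * u * KK u = c * (u * KK u) := fun u => by ring
    simp_rw [this]
    rw [integral_const_mul, KK_odd, mul_zero]
  rw [e1]
  conv_lhs => rw [e2]
  have e3 : (∫ u, tt A (x - u) * KK u) - ∫ u, tt A x * KK u =
      ∫ u, (tt A (x - u) - tt A x + c * u) * KK u := by
    have hi3 : Integrable fun u => tt A (x - u) * KK u - tt A x * KK u :=
      hi1.sub (KK_int.const_mul _)
    rw [← integral_sub hi1 (KK_int.const_mul _)]
    rw [← add_zero (∫ u, (tt A (x - u) * KK u - tt A x * KK u)), ← e0,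
      ← integral_add hi3 hi2]
    exact integral_congr_ae (ae_of_all _ fun u => by simp only; ring)
  rw [e3]
  obtain ⟨D, hD⟩ : ∃ D : ℝ, D = 1 / (1 + (x + A) ^ 2) + 1 / (1 + (x - A) ^ 2) +
    2 * (1 / (1 + x ^ 2)) := ⟨_, rfl⟩
  rw [← hD, show MM / A * D = D / A * MM by ring]
  refine mul_KK_le (w := fun u => tt A (x - u) - tt A x + c * u)
    ((hm.sub measurable_const).add (measurable_const.mul measurable_id)) fun u => ?_
  have t1 := abs_taylor (x + A) u
  have t2 := abs_taylor (x - A) u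
  have t3 := abs_taylor x u
  have e4 : tt A (x - u) - tt A x + c * u =
      ((|x + A - u| - |x + A| + sg (x + A) * u) + (|x - A - u| - |x - A| + sg (x - A) * u) -
        2 * (|x - u| - |x| + sg x * u)) / (2 * A) := by
    rw [tt_eq hA, tt_eq hA, hc, show x - u + A = x + A - u by ring,
      show x - u - A = x - A - u by ring]
    ring
  rw [e4, abs_div, abs_of_pos (show 0 < 2 * A by positivity), div_le_iff₀ (by positivity)]
  have h5 : |(|x + A - u| - |x + A| + sg (x + A) * u) + (|x - A - u| - |x - A| + sg (x - A) * u) -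
        2 * (|x - u| - |x| + sg x * u)| ≤ 2 * (D * (|u| * (1 + u ^ 2))) := by
    refine (abs_sub _ _).trans ?_
    refine (add_le_add (abs_add_le _ _) (le_refl _)).trans ?_
    rw [abs_mul 2 (|x - u| - |x| + sg x * u), abs_two]
    have e6 : 2 * (D * (|u| * (1 + u ^ 2))) = 2 * (|u| * (1 + u ^ 2) / (1 + (x + A) ^ 2)) +
        2 * (|u| * (1 + u ^ 2) / (1 + (x - A) ^ 2)) +
        2 * (2 * (|u| * (1 + u ^ 2) / (1 + x ^ 2))) := by
      rw [hD]; ring
    rw [e6]
    linarith
  refine h5.trans ?_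
  have hD0 : 0 ≤ D := by rw [hD]; positivity
  have h6 : D / A * ((1 + |u|) * (1 + u ^ 2)) * (2 * A) = 2 * (D * ((1 + |u|) * (1 + u ^ 2))) := by
    field_simp
  rw [h6]
  have := hbig2 u
  gcongr

/-! ### locally bounded measures -/

variable {C : ℝ} {μ : Measure ℝ}

lemma Bdd.shift (h : Bdd C μ) (c : ℝ) : Bdd C (μ.map fun x => x - c) := by
  intro a
  rw [Measure.map_apply (measurable_sub_const c) measurableSet_Icc]
  have : (fun x => x - c) ⁻¹' Icc a (a + 1) = Icc (a + c) (a + c + 1) := by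
    ext x
    simp only [mem_preimage, mem_Icc]
    constructor <;> rintro ⟨h1, h2⟩ <;> constructor <;> linarith
  rw [this]
  exact h _

lemma inv_int0 (hC : 0 ≤ C) (h : Bdd C μ) : Integrable (fun x : ℝ => 1 / (1 + x ^ 2)) μ ∧
    ∫ x, 1 / (1 + x ^ 2) ∂μ ≤ 2 * C * DD 0 := by
  have hc : Continuous fun x : ℝ => 1 / (1 + x ^ 2) :=
    continuous_const.div (by fun_prop) fun x => by positivity
  have h2 := lint_le hC h 0
  have h3 : {x : ℝ | ((0 : ℕ) : ℝ) ≤ |x|} = univ := by
    ext x; simp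
  rw [h3, setLIntegral_univ] at h2
  constructor
  · exact h.integrable hC hc ⟨1, fun x => by rw [abs_of_nonneg (by positivity)]⟩
  · rw [integral_eq_lintegral_of_nonneg_ae (ae_of_all _ fun x => by positivity)
      hc.aestronglyMeasurable]
    exact ENNReal.toReal_le_of_le_ofReal (mul_nonneg (by linarith) (DD_nonneg 0)) h2

lemma inv_int (hC : 0 ≤ C) (h : Bdd C μ) (c : ℝ) :
    Integrable (fun x : ℝ => 1 / (1 + (x - c) ^ 2)) μ ∧
    ∫ x, 1 / (1 + (x - c) ^ 2) ∂μ ≤ 2 * C * DD 0 := by
  obtain ⟨h1, h2⟩ := inv_int0 hC (Bdd.shift h c)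
  have hc : Continuous fun x : ℝ => 1 / (1 + x ^ 2) :=
    continuous_const.div (by fun_prop) fun x => by positivity
  constructor
  · exact (integrable_map_measure hc.aestronglyMeasurable (by fun_prop)).1 h1
  · rwa [integral_map (by fun_prop) hc.aestronglyMeasurable] at h2

lemma ind_int (h : Bdd C μ) (a : ℝ) : Integrable (ind a) μ ∧
    ∫ x, ind a x ∂μ = μ.real (Icc (-a) a) := by
  unfold ind
  constructor
  · rw [integrable_indicator_iff measurableSet_Icc]
    exact integrableOn_const (h.lt_top _ _).ne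
  · rw [integral_indicator measurableSet_Icc, setIntegral_const]; simp

/-- the interval against a locally bounded measure -/
theorem ind_pair (hC : 0 ≤ C) (h : Bdd C μ) {a : ℝ} (ha : 0 ≤ a) :
    |∫ x, fl (fun α => τ α * wg (fun _ => 1) a α) x ∂μ - μ.real (Icc (-a) a)| ≤
      4 * MM * DD 0 * C := by
  obtain ⟨i1, e1⟩ := ind_int h a
  have hA : Adm (1 / 2) (fun α => τ α * wg (fun _ => 1) a α) :=
    adm_wg τ_adm continuous_const (fun _ => rfl) (G := 1) (fun _ => by simp) ha
  have i2 : Integrable (fl (fun α => τ α * wg (fun _ => 1) a α)) μ :=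
    h.integrable hC (fl_cont hA.int) (fl_bound hA)
  obtain ⟨j1, k1⟩ := inv_int hC h a
  obtain ⟨j2, k2⟩ := inv_int hC h (-a)
  simp only [sub_neg_eq_add] at j2 k2
  rw [← e1, ← integral_sub i2 i1, ← Real.norm_eq_abs]
  refine (norm_integral_le_integral_norm _).trans ?_
  have h3 : ∫ x, ‖fl (fun α => τ α * wg (fun _ => 1) a α) x - ind a x‖ ∂μ ≤
      ∫ x, MM * (1 / (1 + (x - a) ^ 2) + 1 / (1 + (x + a) ^ 2)) ∂μ :=
    integral_mono_of_nonneg (ae_of_all _ fun x => norm_nonneg _) ((j1.add j2).const_mul _)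
      (ae_of_all _ fun x => ind_err ha x)
  refine h3.trans ?_
  rw [integral_const_mul, integral_add j1 j2]
  have hM := MM_nonneg
  calc MM * (∫ x, 1 / (1 + (x - a) ^ 2) ∂μ + ∫ x, 1 / (1 + (x + a) ^ 2) ∂μ) ≤
        MM * (2 * C * DD 0 + 2 * C * DD 0) := by gcongr
    _ = _ := by ring

lemma tt_qd {A : ℝ} (hA : 0 < A) : QD (tt A) := by
  refine ⟨1 + A ^ 2, fun x => ?_⟩
  rw [le_div_iff₀ (by positivity)]
  rcases le_or_gt A |x| with h | h
  · rw [tt_zero hA h]; simp; positivity
  · have h1 := tt_le hA x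
    have h2 : x ^ 2 ≤ A ^ 2 := by
      rw [← sq_abs x]; exact pow_le_pow_left₀ (abs_nonneg _) h.le 2
    nlinarith [abs_nonneg (tt A x), sq_nonneg x]

/-- the tent against a locally bounded measure -/
theorem tt_pair (hC : 0 ≤ C) (h : Bdd C μ) {A : ℝ} (hA : 0 < A) :
    |∫ x, fl (fun α => τ α * wg (tt A) A α) x ∂μ - ∫ x, tt A x ∂μ| ≤
      8 * MM * DD 0 * C / A := by
  have i1 : Integrable (tt A) μ := h.integrable hC (tt_cont A) (tt_qd hA)
  have hAd : Adm (1 / 2) (fun α => τ α * wg (tt A) A α) :=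
    adm_wg τ_adm (tt_cont A) (tt_even A) (tt_le hA) hA.le
  have i2 : Integrable (fl (fun α => τ α * wg (tt A) A α)) μ :=
    h.integrable hC (fl_cont hAd.int) (fl_bound hAd)
  obtain ⟨j1, k1⟩ := inv_int hC h A
  obtain ⟨j2, k2⟩ := inv_int hC h (-A)
  obtain ⟨j3, k3⟩ := inv_int0 hC h
  simp only [sub_neg_eq_add] at j2 k2
  rw [← integral_sub i2 i1, ← Real.norm_eq_abs]
  refine (norm_integral_le_integral_norm _).trans ?_
  have h3 : ∫ x, ‖fl (fun α => τ α * wg (tt A) A α) x - tt A x‖ ∂μ ≤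
      ∫ x, MM / A * (1 / (1 + (x + A) ^ 2) + 1 / (1 + (x - A) ^ 2) + 2 * (1 / (1 + x ^ 2))) ∂μ :=
    integral_mono_of_nonneg (ae_of_all _ fun x => norm_nonneg _)
      (((j2.add j1).add (j3.const_mul 2)).const_mul _) (ae_of_all _ fun x => tt_err hA x)
  refine h3.trans ?_
  have j21 : Integrable (fun x : ℝ => 1 / (1 + (x + A) ^ 2) + 1 / (1 + (x - A) ^ 2)) μ := j2.add j1
  rw [integral_const_mul, integral_add j21 (j3.const_mul 2), integral_add j2 j1,
    integral_const_mul]
  have hM := MM_nonneg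
  calc MM / A * (∫ x, 1 / (1 + (x + A) ^ 2) ∂μ + ∫ x, 1 / (1 + (x - A) ^ 2) ∂μ +
        2 * ∫ x, 1 / (1 + x ^ 2) ∂μ) ≤
        MM / A * (2 * C * DD 0 + 2 * C * DD 0 + 2 * (2 * C * DD 0)) := by gcongr
    _ = _ := by ring

end Pool.Agent.D0H51.BD
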