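import Pool.Agent.D0H51.BD.Lay

/-! # The number variance of the Gaussian unitary ensemble -/

set_option autoImplicit false

open MeasureTheory Set Filter Topology

namespace Pool.Agent.D0H51.BD

open Pool.Agent.Y749.Rig

/-- the square of the cardinal sine -/
noncomputable def sq (x : ℝ) : ℝ := fl (tr 1) x

lemma sq_cont : Continuous sq := fl_cont (tr_int one_pos)

lemma sq_even (x : ℝ) : sq (-x) = sq x := fl_even x

lemma sq_int : Integrable sq := fl_int (adm_tr one_pos)

lemma sq_total : ∫ x, sq x = 1 := by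
  have h := int_fl (adm_tr (h := 1) one_pos)
  have h1 : tr 1 0 = 1 := by unfold tr; simp
  rw [h1] at h
  exact h

lemma sq_eq {x : ℝ} (hx : x ≠ 0) : sq x = (Real.sin (Real.pi * x) / (Real.pi * x)) ^ 2 := by
  unfold sq
  rw [fl_tr one_pos hx, mul_one]

lemma sq_nonneg' (x : ℝ) : 0 ≤ sq x := by
  rcases eq_or_ne x 0 with h | h
  · rw [h]
    unfold sq fl
    refine integral_nonneg fun α => ?_
    simp only [mul_zero, Real.cos_zero, mul_one]
    exact tr_nonneg one_pos α
  · rw [sq_eq h]; positivity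

lemma FF_sq : ∀ᵐ x : ℝ, FF x = 1 - sq x := by
  have h0 : ∀ᵐ x : ℝ, x ≠ 0 := by
    rw [ae_iff]
    simp
  filter_upwards [h0] with x hx
  unfold FF
  rw [sq_eq hx]

/-- the tail -/
noncomputable def Rr (u : ℝ) : ℝ := ∫ x in Ioi u, sq x

lemma Rr_nonneg (u : ℝ) : 0 ≤ Rr u := integral_nonneg fun x => sq_nonneg' x

lemma half : ∫ x in Ioi (0 : ℝ), sq x = 1 / 2 := by
  have h1 := integral_comp_abs (f := sq)
  have h2 : ∫ x, sq |x| = ∫ x, sq x := by
    refine integral_congr_ae (ae_of_all _ fun x => ?_)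
    simp only
    rcases abs_cases x with h | h
    · rw [h.1]
    · rw [h.1, sq_even]
  rw [h2, sq_total] at h1
  linarith

lemma Rr_le_one {u : ℝ} (hu : 0 ≤ u) : Rr u ≤ 1 / 2 := by
  rw [← half]
  exact setIntegral_mono_set sq_int.integrableOn (ae_of_all _ fun x => sq_nonneg' x)
    (Eventually.of_forall (Ioi_subset_Ioi hu))

lemma PP_eq {u : ℝ} (hu : 0 ≤ u) : PP u = u - 1 / 2 + Rr u := by
  unfold PP
  have h1 : ∫ x in (0 : ℝ)..u, FF x = ∫ x in (0 : ℝ)..u, (1 - sq x) := by
    refine intervalIntegral.integral_congr_ae ?_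
    filter_upwards [FF_sq] with x hx _
    exact hx
  rw [h1, intervalIntegral.integral_sub (by simp) (sq_cont.intervalIntegrable _ _)]
  have h2 : ∫ x in (0 : ℝ)..u, sq x = 1 / 2 - Rr u := by
    have h3 := intervalIntegral.integral_Ioi_sub_Ioi (f := sq) (μ := volume) (a := 0) (b := u)
      sq_int.integrableOn hu
    rw [half] at h3
    unfold Rr
    rw [← h3]
  rw [h2]
  simp
  ring

lemma sin_tail {u : ℝ} (hu : 0 < u) : |∫ x in Ioi u, Real.cos (2 * Real.pi * x) / x ^ 2| ≤
    1 / u ^ 2 := by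
  have hpi := Real.pi_gt_three
  have hc3 : IntegrableOn (fun x : ℝ => 1 / x ^ 3) (Ioi u) := by
    have := integrableOn_Ioi_rpow_of_lt (a := -3) (by norm_num) hu
    refine this.congr_fun (fun x hx => ?_) measurableSet_Ioi
    simp only
    rw [Real.rpow_neg (le_of_lt (lt_trans hu hx)), one_div]
    congr 1
    exact_mod_cast Real.rpow_natCast x 3
  have hc2 : IntegrableOn (fun x : ℝ => 1 / x ^ 2) (Ioi u) := by
    have := integrableOn_Ioi_rpow_of_lt (a := -2) (by norm_num) hu
    refine this.congr_fun (fun x hx => ?_) measurableSet_Ioi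
    simp only
    rw [Real.rpow_neg (le_of_lt (lt_trans hu hx)), one_div]
    congr 1
    exact_mod_cast Real.rpow_natCast x 2
  have i3v : ∫ x in Ioi u, 1 / x ^ 3 = 1 / (2 * u ^ 2) := by
    have h := integral_Ioi_rpow_of_lt (a := -3) (by norm_num) hu
    have e : ∫ x in Ioi u, 1 / x ^ 3 = ∫ x in Ioi u, x ^ (-3 : ℝ) := by
      refine setIntegral_congr_fun measurableSet_Ioi fun x hx => ?_
      rw [Real.rpow_neg (le_of_lt (lt_trans hu hx)), one_div]
      congr 1
      exact_mod_cast (Real.rpow_natCast x 3).symm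
    rw [e, h]
    have e2 : (-3 : ℝ) + 1 = -2 := by norm_num
    rw [e2, Real.rpow_neg hu.le]
    have e3 : u ^ (2 : ℝ) = u ^ 2 := by exact_mod_cast Real.rpow_natCast u 2
    rw [e3]
    field_simp
  -- the primitive
  have hder : ∀ x ∈ Ioi u, HasDerivAt (fun x : ℝ => Real.sin (2 * Real.pi * x) / (2 * Real.pi * x ^ 2))
      (Real.cos (2 * Real.pi * x) / x ^ 2 - Real.sin (2 * Real.pi * x) / (Real.pi * x ^ 3)) x := by
    intro x hx
    have hx0 : x ≠ 0 := (lt_trans hu hx).ne'
    have h1 : HasDerivAt (fun x : ℝ => 2 * Real.pi * x) (2 * Real.pi) x := by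
      simpa using (hasDerivAt_id x).const_mul (2 * Real.pi)
    have h2 := h1.sin
    have h3 : HasDerivAt (fun x : ℝ => 2 * Real.pi * x ^ 2) (2 * Real.pi * (2 * x)) x := by
      simpa using (hasDerivAt_pow 2 x).const_mul (2 * Real.pi)
    have h4 := h2.div h3 (by positivity)
    refine h4.congr_deriv ?_
    field_simp
  have hint1 : IntegrableOn (fun x : ℝ => Real.cos (2 * Real.pi * x) / x ^ 2) (Ioi u) := by
    have h := hc2.bdd_mul (c := 1) (f := fun x => Real.cos (2 * Real.pi * x)) (by
      apply Continuous.aestronglyMeasurable; fun_prop) (ae_of_all _ fun x => Real.abs_cos_le_one _)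
    refine h.congr (ae_of_all _ fun x => ?_)
    simp only
    ring
  have hint2 : IntegrableOn (fun x : ℝ => Real.sin (2 * Real.pi * x) / (Real.pi * x ^ 3)) (Ioi u) := by
    have h := (hc3.bdd_mul (c := 1) (f := fun x => Real.sin (2 * Real.pi * x)) (by
      apply Continuous.aestronglyMeasurable; fun_prop)
      (ae_of_all _ fun x => Real.abs_sin_le_one _)).div_const Real.pi
    refine h.congr (ae_of_all _ fun x => ?_)
    simp only
    have := Real.pi_pos
    field_simp
  have htend : Tendsto (fun x : ℝ => Real.sin (2 * Real.pi * x) / (2 * Real.pi * x ^ 2)) atTop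
      (𝓝 0) := by
    have h1 : Tendsto (fun x : ℝ => 1 / (2 * Real.pi * x ^ 2)) atTop (𝓝 0) := by
      refine Tendsto.div_atTop tendsto_const_nhds ?_
      exact (tendsto_pow_atTop (by norm_num)).const_mul_atTop (by positivity)
    refine squeeze_zero_norm (fun x => ?_) h1
    rw [norm_div, Real.norm_eq_abs, Real.norm_eq_abs]
    rw [abs_of_nonneg (show 0 ≤ 2 * Real.pi * x ^ 2 by positivity)]
    apply div_le_div_of_nonneg_right (Real.abs_sin_le_one _) (by positivity)
  have hcont : ContinuousWithinAt (fun x : ℝ => Real.sin (2 * Real.pi * x) / (2 * Real.pi * x ^ 2))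
      (Ici u) u := by
    apply ContinuousAt.continuousWithinAt
    apply ContinuousAt.div
    · fun_prop
    · fun_prop
    · positivity
  have hF := integral_Ioi_of_hasDerivAt_of_tendsto hcont hder (hint1.sub hint2) htend
  rw [integral_sub hint1 hint2] at hF
  have h5 : |∫ x in Ioi u, Real.sin (2 * Real.pi * x) / (Real.pi * x ^ 3)| ≤ 1 / (2 * u ^ 2) := by
    rw [← i3v, ← Real.norm_eq_abs]
    refine (norm_integral_le_integral_norm _).trans ?_
    refine setIntegral_mono_on hint2.norm hc3 measurableSet_Ioi fun x hx => ?_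
    have hx0 : 0 < x := lt_trans hu hx
    rw [norm_div, Real.norm_eq_abs, Real.norm_eq_abs,
      abs_of_pos (show 0 < Real.pi * x ^ 3 by positivity)]
    have h6 := Real.abs_sin_le_one (2 * Real.pi * x)
    rw [div_le_div_iff₀ (by positivity) (by positivity)]
    have h7 : 0 < x ^ 3 := by positivity
    nlinarith
  have h6 : |0 - Real.sin (2 * Real.pi * u) / (2 * Real.pi * u ^ 2)| ≤ 1 / (2 * u ^ 2) := by
    rw [zero_sub, abs_neg, abs_div, abs_of_pos (show 0 < 2 * Real.pi * u ^ 2 by positivity)]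
    have h6 := Real.abs_sin_le_one (2 * Real.pi * u)
    rw [div_le_div_iff₀ (by positivity) (by positivity)]
    have h7 : 0 < u ^ 2 := by positivity
    nlinarith
  have h7 : ∫ x in Ioi u, Real.cos (2 * Real.pi * x) / x ^ 2 =
      (0 - Real.sin (2 * Real.pi * u) / (2 * Real.pi * u ^ 2)) +
        ∫ x in Ioi u, Real.sin (2 * Real.pi * x) / (Real.pi * x ^ 3) := by
    linarith
  rw [h7]
  refine (abs_add_le _ _).trans ?_
  have h8 : 1 / (2 * u ^ 2) + 1 / (2 * u ^ 2) = 1 / u ^ 2 := by
    field_simp; norm_num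
  linarith

lemma Rr_asymp {u : ℝ} (hu : 0 < u) : |Rr u - 1 / (2 * Real.pi ^ 2) * (1 / u)| ≤ 1 / u ^ 2 := by
  have hpi := Real.pi_gt_three
  have hc2 : IntegrableOn (fun x : ℝ => 1 / x ^ 2) (Ioi u) := by
    have := integrableOn_Ioi_rpow_of_lt (a := -2) (by norm_num) hu
    refine this.congr_fun (fun x hx => ?_) measurableSet_Ioi
    simp only
    rw [Real.rpow_neg (le_of_lt (lt_trans hu hx)), one_div]
    congr 1
    exact_mod_cast Real.rpow_natCast x 2
  have i2v : ∫ x in Ioi u, 1 / x ^ 2 = 1 / u := by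
    have h := integral_Ioi_rpow_of_lt (a := -2) (by norm_num) hu
    have e : ∫ x in Ioi u, 1 / x ^ 2 = ∫ x in Ioi u, x ^ (-2 : ℝ) := by
      refine setIntegral_congr_fun measurableSet_Ioi fun x hx => ?_
      rw [Real.rpow_neg (le_of_lt (lt_trans hu hx)), one_div]
      congr 1
      exact_mod_cast (Real.rpow_natCast x 2).symm
    rw [e, h]
    have e2 : (-2 : ℝ) + 1 = -1 := by norm_num
    rw [e2, Real.rpow_neg hu.le, Real.rpow_one]
    field_simp
  have hint1 : IntegrableOn (fun x : ℝ => Real.cos (2 * Real.pi * x) / x ^ 2) (Ioi u) := by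
    have h := hc2.bdd_mul (c := 1) (f := fun x => Real.cos (2 * Real.pi * x)) (by
      apply Continuous.aestronglyMeasurable; fun_prop) (ae_of_all _ fun x => Real.abs_cos_le_one _)
    refine h.congr (ae_of_all _ fun x => ?_)
    simp only
    ring
  have e1 : Rr u = 1 / (2 * Real.pi ^ 2) * (1 / u) -
      1 / (2 * Real.pi ^ 2) * ∫ x in Ioi u, Real.cos (2 * Real.pi * x) / x ^ 2 := by
    rw [← i2v, ← mul_sub, ← integral_sub hc2 hint1, ← integral_const_mul]
    unfold Rr
    refine setIntegral_congr_fun measurableSet_Ioi fun x hx => ?_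
    have hx0 : x ≠ 0 := (lt_trans hu hx).ne'
    rw [sq_eq hx0, show 2 * Real.pi * x = 2 * (Real.pi * x) by ring, Real.cos_two_mul,
      Real.cos_sq']
    have := Real.pi_pos
    field_simp
    ring
  rw [e1, sub_sub_cancel_left, abs_neg, abs_mul, abs_of_pos (by positivity)]
  have h1 := sin_tail hu
  have h2 : 1 / (2 * Real.pi ^ 2) ≤ 1 := by
    rw [div_le_one (by positivity)]
    nlinarith
  calc 1 / (2 * Real.pi ^ 2) * |∫ x in Ioi u, Real.cos (2 * Real.pi * x) / x ^ 2| ≤
        1 * (1 / u ^ 2) := by gcongr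
    _ = _ := one_mul _

lemma Rr_anti {u v : ℝ} (h : u ≤ v) : Rr v ≤ Rr u :=
  setIntegral_mono_set sq_int.integrableOn (ae_of_all _ fun x => sq_nonneg' x)
    (Eventually.of_forall (Ioi_subset_Ioi h))

lemma Rr_ii (a b : ℝ) : IntervalIntegrable Rr volume a b := by
  apply AntitoneOn.intervalIntegrable
  intro u _ v _ huv
  exact Rr_anti huv

/-- the number variance of the Gaussian unitary ensemble -/
noncomputable def GV (a : ℝ) : ℝ := a * (∫ x, tt a x ∂mG) - a ^ 2

lemma GV_eq {a : ℝ} (ha : 0 < a) : GV a = 2 * ∫ u in (0 : ℝ)..a, Rr u := by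
  have hsG := mG_sf
  have h1 := layer (by norm_num) mG_bdd ha
  unfold GV
  rw [← h1]
  have h2 : ∫ u in (0 : ℝ)..a, mG.real (Icc (-u) u) = ∫ u in (0 : ℝ)..a, (2 * u + 2 * Rr u) := by
    refine intervalIntegral.integral_congr fun u hu => ?_
    rw [uIcc_of_le ha.le] at hu
    rw [mG_sym hu.1, PP_eq hu.1]
    ring
  rw [h2, intervalIntegral.integral_add (by
    apply Continuous.intervalIntegrable; fun_prop) ((Rr_ii _ _).const_mul 2),
    intervalIntegral.integral_const_mul, intervalIntegral.integral_const_mul, integral_id]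
  ring

/-- the logarithm -/
theorem GV_log {a : ℝ} (ha : 1 ≤ a) : |GV a - 1 / Real.pi ^ 2 * Real.log a| ≤ 3 := by
  rw [GV_eq (by linarith),
    ← intervalIntegral.integral_add_adjacent_intervals (Rr_ii 0 1) (Rr_ii 1 a)]
  have h1 : |∫ u in (0 : ℝ)..1, Rr u| ≤ 1 / 2 := by
    have := intervalIntegral.norm_integral_le_of_norm_le_const (a := 0) (b := 1) (C := 1 / 2)
      (f := Rr) (fun u hu => by
        rw [uIoc_of_le (by norm_num)] at hu
        rw [Real.norm_eq_abs, abs_of_nonneg (Rr_nonneg u)]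
        exact Rr_le_one hu.1.le)
    rw [Real.norm_eq_abs] at this
    simpa using this
  have hci : IntervalIntegrable (fun u : ℝ => 1 / u) volume 1 a := by
    apply ContinuousOn.intervalIntegrable
    intro u hu
    rw [uIcc_of_le ha] at hu
    apply ContinuousAt.continuousWithinAt
    apply ContinuousAt.div continuousAt_const continuousAt_id
    have := hu.1
    simp only [id]
    positivity
  have hci2 : IntervalIntegrable (fun u : ℝ => 1 / u ^ 2) volume 1 a := by
    apply ContinuousOn.intervalIntegrable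
    intro u hu
    rw [uIcc_of_le ha] at hu
    apply ContinuousAt.continuousWithinAt
    apply ContinuousAt.div continuousAt_const (by fun_prop)
    have := hu.1
    positivity
  have h2 : ∫ u in (1 : ℝ)..a, 1 / u = Real.log a := by
    rw [integral_one_div_of_pos one_pos (by linarith)]
    simp
  have h3 : ∫ u in (1 : ℝ)..a, 1 / u ^ 2 ≤ 1 := by
    have h4 : ∀ x ∈ uIcc 1 a, HasDerivAt (fun x : ℝ => -(1 / x)) (1 / x ^ 2) x := by
      intro x hx
      rw [uIcc_of_le ha] at hx
      have hx0 : x ≠ 0 := by have := hx.1; positivity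
      have h5 : HasDerivAt (fun y : ℝ => -(y⁻¹)) (-(-(x ^ 2)⁻¹)) x := (hasDerivAt_inv hx0).neg
      have e : (fun x : ℝ => -(1 / x)) = fun y : ℝ => -(y⁻¹) := by funext y; rw [one_div]
      rw [e, one_div, ← neg_neg ((x ^ 2)⁻¹)]
      exact h5
    rw [intervalIntegral.integral_eq_sub_of_hasDerivAt h4 hci2]
    have : 0 < 1 / a := by positivity
    rw [div_one]
    linarith
  have h4 : |(∫ u in (1 : ℝ)..a, Rr u) - 1 / (2 * Real.pi ^ 2) * Real.log a| ≤ 1 := by
    rw [← h2, ← intervalIntegral.integral_const_mul, ← intervalIntegral.integral_sub (Rr_ii _ _)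
      (hci.const_mul _)]
    rw [← Real.norm_eq_abs]
    refine (intervalIntegral.norm_integral_le_integral_norm ha).trans (le_trans ?_ h3)
    refine intervalIntegral.integral_mono_on ha ((Rr_ii _ _).sub (hci.const_mul _)).norm hci2
      fun u hu => ?_
    rw [Real.norm_eq_abs]
    exact Rr_asymp (by linarith [hu.1])
  have e1 : 2 * ((∫ u in (0 : ℝ)..1, Rr u) + ∫ u in (1 : ℝ)..a, Rr u) -
      1 / Real.pi ^ 2 * Real.log a = 2 * (∫ u in (0 : ℝ)..1, Rr u) +
      2 * ((∫ u in (1 : ℝ)..a, Rr u) - 1 / (2 * Real.pi ^ 2) * Real.log a) := by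
    have := Real.pi_pos
    field_simp
    ring
  rw [e1]
  refine (abs_add_le _ _).trans ?_
  rw [abs_mul, abs_mul, abs_two]
  linarith

end Pool.Agent.D0H51.BD
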