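import Pool.Agent.D0H51.BD.Err
import Pool.Agent.Y749.Rig.Ana

/-! # Layers of a tent, and the transforms of the interval and of the tent -/

set_option autoImplicit false

open MeasureTheory Set Filter Topology
open scoped NNReal ENNReal

namespace Pool.Agent.D0H51.BD

open Pool.Agent.Y749.Rig

/-- the interval: bound for the transform -/
lemma wg_one (a α : ℝ) (hα : |α| ≤ 1) : |wg (fun _ => 1) a α| * α ^ 2 ≤ 1 := by
  have hpi := Real.pi_gt_three
  rcases eq_or_ne α 0 with h0 | h0
  · rw [h0]; simp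
  have h1 : wg (fun _ => 1) a α * α = Real.sin (2 * Real.pi * α * a) / Real.pi := by
    unfold wg
    have h2 := intervalIntegral.integral_comp_mul_left (a := -a) (b := a) Real.cos
      (show 2 * Real.pi * α ≠ 0 by positivity)
    simp only [one_mul]
    rw [h2, integral_cos, smul_eq_mul, show 2 * Real.pi * α * -a = -(2 * Real.pi * α * a) by ring,
      Real.sin_neg]
    field_simp
    ring
  have h3 : |wg (fun _ => 1) a α * α| ≤ 1 := by
    rw [h1, abs_div, abs_of_pos Real.pi_pos, div_le_one Real.pi_pos]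
    exact (Real.abs_sin_le_one _).trans (by linarith)
  rw [abs_mul] at h3
  calc |wg (fun _ => 1) a α| * α ^ 2 = |wg (fun _ => 1) a α| * |α| * |α| := by
        rw [← sq_abs α]; ring
    _ ≤ 1 * 1 := by gcongr
    _ = 1 := one_mul _

/-- the tent: the transform -/
lemma wg_tt {A : ℝ} (hA : 0 < A) (α : ℝ) : |wg (tt A) A α| * α ^ 2 ≤ 1 / A := by
  have hpi := Real.pi_gt_three
  rcases eq_or_ne α 0 with h0 | h0
  · rw [h0]; simp; positivity
  have h1 : wg (tt A) A α = A * fl (tr A) α := by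
    unfold wg fl
    rw [← integral_const_mul, intervalIntegral.integral_of_le (by linarith),
        setIntegral_eq_integral_of_forall_compl_eq_zero]
    · refine integral_congr_ae (ae_of_all _ fun s => ?_)
      simp only
      unfold tt tr
      rw [show 2 * Real.pi * α * s = 2 * Real.pi * s * α by ring]
      field_simp
    · intro s hs
      have : A ≤ |s| := by
        by_contra hcon
        push Not at hcon
        have := abs_lt.1 hcon
        exact hs ⟨this.1, this.2.le⟩
      rw [tt_zero hA this, zero_mul]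
  rw [h1, fl_tr hA h0, abs_of_nonneg (by positivity)]
  have h2 : Real.sin (Real.pi * A * α) ^ 2 ≤ 1 := by
    nlinarith [Real.sin_sq_add_cos_sq (Real.pi * A * α), sq_nonneg (Real.cos (Real.pi * A * α))]
  rw [div_pow]
  have h3 : A * (Real.sin (Real.pi * A * α) ^ 2 / (Real.pi * A * α) ^ 2) * α ^ 2 =
      Real.sin (Real.pi * A * α) ^ 2 / (Real.pi ^ 2 * A) := by
    field_simp
  rw [h3]
  rw [div_le_div_iff₀ (by positivity) hA]
  have h4 : 1 ≤ Real.pi ^ 2 := by nlinarith
  nlinarith

/-- the layers of the tent -/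
theorem layer {C : ℝ} {μ : Measure ℝ} [SFinite μ] (hC : 0 ≤ C) (h : Bdd C μ) {A : ℝ}
    (hA : 0 < A) : ∫ u in (0 : ℝ)..A, μ.real (Icc (-u) u) = A * ∫ x, tt A x ∂μ := by
  obtain ⟨f, hf⟩ : ∃ f : ℝ → ℝ → ℝ, ∀ u x, f u x = (Icc (-u) u).indicator (fun _ => (1 : ℝ)) x :=
    ⟨fun u x => (Icc (-u) u).indicator (fun _ => (1 : ℝ)) x, fun u x => rfl⟩
  have hS : MeasurableSet {p : ℝ × ℝ | |p.2| ≤ p.1} :=
    measurableSet_le (by fun_prop) measurable_fst
  have hf2 : Function.uncurry f = {p : ℝ × ℝ | |p.2| ≤ p.1}.indicator (fun _ => 1) := by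
    ext p
    simp only [Function.uncurry]
    rw [hf]
    by_cases hp : |p.2| ≤ p.1
    · rw [indicator_of_mem (show p.2 ∈ Icc (-p.1) p.1 from ⟨(abs_le.1 hp).1, (abs_le.1 hp).2⟩),
        indicator_of_mem (show p ∈ {p : ℝ × ℝ | |p.2| ≤ p.1} from hp)]
    · rw [indicator_of_notMem (fun h2 => hp (abs_le.2 ⟨h2.1, h2.2⟩)),
        indicator_of_notMem (show p ∉ {p : ℝ × ℝ | |p.2| ≤ p.1} from hp)]
  have hmeas : AEStronglyMeasurable (Function.uncurry f) ((volume.restrict (Ioc 0 A)).prod μ) := by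
    rw [hf2]
    exact aestronglyMeasurable_const.indicator hS
  have h1 : ∀ u, ∫ x, f u x ∂μ = μ.real (Icc (-u) u) := by
    intro u
    simp_rw [hf]
    rw [integral_indicator measurableSet_Icc, setIntegral_const, smul_eq_mul, mul_one]
  have hfin : IsFiniteMeasure (volume.restrict (Ioc 0 A)) := by
    constructor
    rw [Measure.restrict_apply_univ]
    exact measure_Ioc_lt_top
  have hint : Integrable (Function.uncurry f) ((volume.restrict (Ioc 0 A)).prod μ) := by
    have hg : Integrable (fun p : ℝ × ℝ => ind A p.2) ((volume.restrict (Ioc 0 A)).prod μ) :=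
      (ind_int h A).1.comp_snd _
    refine hg.mono' hmeas ?_
    have hae : ∀ᵐ p : ℝ × ℝ ∂((volume.restrict (Ioc 0 A)).prod μ), p.1 ∈ Ioc 0 A :=
      Measure.quasiMeasurePreserving_fst.ae (ae_restrict_mem measurableSet_Ioc)
    filter_upwards [hae] with p hp
    rw [hf2]
    by_cases h2 : |p.2| ≤ p.1
    · rw [indicator_of_mem (show p ∈ {p : ℝ × ℝ | |p.2| ≤ p.1} from h2)]
      unfold ind
      rw [indicator_of_mem]
      · simp
      · have h3 := abs_le.1 (h2.trans hp.2)
        exact ⟨h3.1, h3.2⟩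
    · rw [indicator_of_notMem (show p ∉ {p : ℝ × ℝ | |p.2| ≤ p.1} from h2), norm_zero]
      unfold ind
      exact indicator_nonneg (fun _ _ => zero_le_one) _
  rw [intervalIntegral.integral_of_le hA.le]
  simp_rw [← h1]
  rw [integral_integral_swap hint, ← integral_const_mul]
  refine integral_congr_ae (ae_of_all _ fun x => ?_)
  simp only
  have h4 : ∫ u in Ioc 0 A, f u x = ∫ u in Ioc 0 A, (Ioi |x|).indicator (fun _ => (1 : ℝ)) u := by
    refine integral_congr_ae ?_
    have h0 : ∀ᵐ u : ℝ ∂(volume.restrict (Ioc 0 A)), u ≠ |x| := by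
      refine ae_restrict_of_ae ?_
      rw [ae_iff]
      simp
    filter_upwards [h0] with u hu
    rw [hf]
    by_cases h2 : |x| ≤ u
    · rw [indicator_of_mem (show x ∈ Icc (-u) u from ⟨(abs_le.1 h2).1, (abs_le.1 h2).2⟩),
        indicator_of_mem]
      exact lt_of_le_of_ne h2 (Ne.symm hu)
    · rw [indicator_of_notMem (fun h3 => h2 (abs_le.2 ⟨h3.1, h3.2⟩)), indicator_of_notMem]
      exact fun h3 => h2 (le_of_lt h3)
  rw [h4, integral_indicator measurableSet_Ioi, setIntegral_const, smul_eq_mul, mul_one]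
  rw [Measure.real, Measure.restrict_apply measurableSet_Ioi]
  have h5 : Ioi |x| ∩ Ioc 0 A = Ioc |x| A := by
    ext u
    simp only [mem_inter_iff, mem_Ioi, mem_Ioc]
    constructor
    · rintro ⟨a1, a2, a3⟩; exact ⟨a1, a3⟩
    · rintro ⟨a1, a2⟩; exact ⟨a1, lt_of_le_of_lt (abs_nonneg _) a1, a2⟩
  rw [h5, Real.volume_Ioc]
  unfold tt
  rcases le_total |x| A with h6 | h6
  · rw [ENNReal.toReal_ofReal (by linarith), max_eq_right]
    · field_simp
    · have : |x| / A ≤ 1 := by rwa [div_le_one hA]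
      linarith
  · rw [ENNReal.ofReal_of_nonpos (by linarith), max_eq_left]
    · simp
    · have : 1 ≤ |x| / A := by rwa [one_le_div hA]
      linarith

/-- the prediction -/
noncomputable def PP (a : ℝ) : ℝ := ∫ u in (0 : ℝ)..a, FF u

lemma mG_sym {u : ℝ} (hu : 0 ≤ u) : mG.real (Icc (-u) u) = 1 + 2 * PP u := by
  have h0 : (Icc (-u) u).indicator (1 : ℝ → ℝ≥0∞) 0 = 1 := by
    rw [indicator_of_mem (show (0 : ℝ) ∈ Icc (-u) u from ⟨by linarith, hu⟩)]
    rfl
  have hfin : ∫⁻ x in Icc (-u) u, ENNReal.ofReal (FF x) < ⊤ := by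
    have h1 := mG_bdd.lt_top (-u) u
    rw [mG_apply] at h1
    exact (ENNReal.add_lt_top.1 h1).2
  rw [Measure.real, mG_apply, h0, ENNReal.toReal_add (by simp) hfin.ne]
  have h2 : (∫⁻ x in Icc (-u) u, ENNReal.ofReal (FF x)).toReal = ∫ x in (-u)..u, FF x := by
    rw [intervalIntegral.integral_of_le (by linarith), ← integral_Icc_eq_integral_Ioc,
        integral_eq_lintegral_of_nonneg_ae (ae_of_all _ fun x => FF_nonneg x)
        FF_meas.aestronglyMeasurable]
  rw [h2, ENNReal.toReal_one]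
  congr 1
  unfold PP
  rw [← intervalIntegral.integral_add_adjacent_intervals (FF_ii (-u) 0) (FF_ii 0 u)]
  have h3 := intervalIntegral.integral_comp_neg (a := 0) (b := u) FF
  rw [neg_zero] at h3
  rw [← h3]
  have h4 : ∀ x, FF (-x) = FF x := FF_even
  simp_rw [h4]
  ring

end Pool.Agent.D0H51.BD
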