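import Pool.Agent.D0H51.BD.Sm
import Pool.Agent.Y749.Rig.Fin
import Pool.Agent.Y749.Rig.RecD2
import Pool.Agent.Y750.OM.Conv1

/-! # The pair measures of the ordinates up to a height against band-limited functions -/

set_option autoImplicit false

open MeasureTheory Set Filter Topology

namespace Pool.Agent.D0H51.BD

open Pool.Agent.Y749.Rig
open H370 (Zf mult good_zeta mem_Zf NN zset)
open Pool.Agent.Y750.OM (PO NO rh bl)

/-- asymptotic nearness to the predicted value -/
def Near (E : ℝ) (ψ : ℝ → ℝ) : Prop :=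
  ∀ ε : ℝ, 0 < ε → ∀ᶠ T in atTop, |∫ x, fl ψ x ∂(Mp T) - cc ψ| ≤ E + ε

lemma Near.mono {E E' : ℝ} {ψ : ℝ → ℝ} (h : Near E ψ) (hE : E ≤ E') : Near E' ψ := by
  intro ε hε
  filter_upwards [h ε hε] with T hT
  linarith

/-- closedness -/
lemma Near.of_all {E : ℝ} {ψ : ℝ → ℝ} (h : ∀ η : ℝ, 0 < η → Near (E + η) ψ) : Near E ψ := by
  intro ε hε
  filter_upwards [h (ε / 2) (by positivity) (ε / 2) (by positivity)] with T hT
  linarith

lemma cc_add {κ : ℝ} {ψ φ : ℝ → ℝ} (h : Adm κ ψ) (h' : Adm κ φ) :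
    cc (fun x => ψ x + φ x) = cc ψ + cc φ := by
  have hi : ∀ {g : ℝ → ℝ}, Adm κ g → Integrable fun α => |α| * g α := by
    intro g hg
    refine Continuous.integrable_of_hasCompactSupport ?_ ?_
    · have := hg.cont
      fun_prop
    · exact hg.hcs.mul_left
  unfold cc
  have e : ∫ α, |α| * (ψ α + φ α) = (∫ α, |α| * ψ α) + ∫ α, |α| * φ α := by
    rw [← integral_add (hi h) (hi h')]
    refine integral_congr_ae (ae_of_all _ fun α => ?_)
    simp only
    ring
  rw [e]
  ring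

lemma Near.add {κ E E' : ℝ} {ψ φ : ℝ → ℝ} (h : Adm κ ψ) (h' : Adm κ φ) (hn : Near E ψ)
    (hn' : Near E' φ) : Near (E + E') (fun x => ψ x + φ x) := by
  intro ε hε
  filter_upwards [hn (ε / 2) (by positivity), hn' (ε / 2) (by positivity),
    eventually_ge_atTop 10] with T h1 h2 hT
  have e1 : ∫ x, fl (fun x => ψ x + φ x) x ∂(Mp T) =
      (∫ x, fl ψ x ∂(Mp T)) + ∫ x, fl φ x ∂(Mp T) := by
    rw [Mp_integral hT, Mp_integral hT, Mp_integral hT, ← add_div]
    congr 1
    unfold RR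
    rw [← Finset.sum_add_distrib]
    refine Finset.sum_congr rfl fun s _ => ?_
    rw [← Finset.sum_add_distrib]
    refine Finset.sum_congr rfl fun s' _ => ?_
    rw [fl_add h.int h'.int]
    ring
  rw [e1, cc_add h h']
  have e2 : (∫ x, fl ψ x ∂(Mp T)) + (∫ x, fl φ x ∂(Mp T)) - (cc ψ + cc φ) =
      ((∫ x, fl ψ x ∂(Mp T)) - cc ψ) + ((∫ x, fl φ x ∂(Mp T)) - cc φ) := by ring
  rw [e2]
  refine (abs_add_le _ _).trans ?_
  linarith

/-- Montgomery's theorem for the ordinates up to a height, unconditionally -/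
theorem near_ord : ∃ C : ℝ, 0 < C ∧ ∀ δ : ℝ, 0 < δ → δ ≤ 1 / 2 → ∀ ψ : ℝ → ℝ, Adm δ ψ →
    ∀ R : ℝ, (∀ α, |ψ α| ≤ R) → Near (C * R * δ ^ 3) ψ := by
  classical
  obtain ⟨C, θ, hC, hθ, hp⟩ := Pool.Agent.Y750.OM.pair_ord (κ0 := 1 / 2) (by norm_num) (by norm_num)
  obtain ⟨C1, T1, hC1, hT1, hnn⟩ := H370.nn_asymp good_zeta
  refine ⟨C, hC, fun δ hδ hδ2 ψ hψ R hR => ?_⟩
  have hR0 : 0 ≤ R := (abs_nonneg _).trans (hR 0)
  have hpi := Real.pi_pos
  obtain ⟨K, hK⟩ := hψ.lip
  obtain ⟨B, hB⟩ := fl_bound hψ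
  have hcf : ∀ x, |rh ψ x| * (1 + x ^ 2) ≤ (2 * Real.pi) ^ 2 * B := by
    refine Pool.Agent.Y750.OM.rh_of_bl fun u => ?_
    have h1 := hB u
    rwa [le_div_iff₀ (by positivity)] at h1
  obtain ⟨E, hE⟩ : ∃ E : ℝ, E = C * R * δ ^ 3 := ⟨_, rfl⟩
  have hE0 : 0 ≤ E := by rw [hE]; positivity
  rw [← hE]
  have hblk : ∀ ε : ℝ, 0 < ε → ∀ᶠ q : ℝ in atTop,
      |RR (fl ψ) (Zf riemannZeta q (2 * q)) (Zf riemannZeta q (2 * q)) (Real.log q) -
        q * (Real.log q / (2 * Real.pi)) * cc ψ| ≤ (E / (2 * Real.pi) + ε) * (q * Real.log q) := by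
    intro ε hε
    obtain ⟨e, he⟩ : ∃ e : ℝ, e = min 1 (ε / 4) := ⟨_, rfl⟩
    have he0 : 0 < e := by rw [he]; exact lt_min one_pos (by positivity)
    have he1 : e ≤ 1 := by rw [he]; exact min_le_left _ _
    have he4 : e ≤ ε / 4 := by rw [he]; exact min_le_right _ _
    obtain ⟨T0, hT0, h⟩ := hp δ hδ hδ2 ψ K hK (fun α hα => hψ.supp α hα.le) _ hcf R hR e he0
    filter_upwards [eventually_ge_atTop T0, eventually_ge_atTop T1,
      Real.tendsto_log_atTop.eventually_ge_atTop (4 * C1 * (E + 1 + |cc ψ|) / ε + 1)]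
      with q hq hq1 hlog
    have hq10 : 10 ≤ q := hT0.trans hq
    have hL := one_lt_log (show 3 ≤ q by linarith)
    have hLp : 0 < Real.log q := by linarith
    have hqp : 0 < q := by linarith
    have h1 := h q hq
    have h2 := hnn q hq1 q (2 * q) le_rfl (by linarith) (by linarith) le_rfl
    obtain ⟨N, hN⟩ : ∃ N : ℝ, N = (NN riemannZeta q (2 * q) : ℝ) := ⟨_, rfl⟩
    rw [← hN] at h1 h2
    have hN0 : 0 ≤ N := by rw [hN]; positivity
    have hPO : PO (rh ψ) q (2 * q) (Real.log q) =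
        RR (fl ψ) (Zf riemannZeta q (2 * q)) (Zf riemannZeta q (2 * q)) (Real.log q) := by
      unfold PO RR mm
      refine Finset.sum_congr rfl fun s _ => Finset.sum_congr rfl fun s' _ => ?_
      rw [← Pool.Agent.Y750.OM.bl_eq]
      rfl
    have hr : (NO q (2 * q) / N) ^ θ ≤ 1 := by
      apply Real.rpow_le_one _ _ hθ.le
      · exact div_nonneg (Pool.Agent.Y750.OM.NO_nonneg _ _) hN0
      · apply div_le_one_of_le₀ _ hN0
        rw [hN, ← NN_eq' (by linarith)]
        unfold NO mm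
        exact Finset.sum_le_sum_of_subset_of_nonneg (Finset.filter_subset _ _)
            fun _ _ _ => Nat.cast_nonneg _
    have hcc : ψ 0 + ∫ α : ℝ, |α| * ψ α = cc ψ := rfl
    rw [hPO, hcc, ← hE] at h1
    have h3 : |RR (fl ψ) (Zf riemannZeta q (2 * q)) (Zf riemannZeta q (2 * q)) (Real.log q) -
        N * cc ψ| ≤ (E + e) * N := by
      refine h1.trans ?_
      apply mul_le_mul_of_nonneg_right _ hN0
      have : E * (NO q (2 * q) / N) ^ θ ≤ E := mul_le_of_le_one_right hE0 hr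
      linarith
    obtain ⟨X, hX⟩ : ∃ X : ℝ, X = q * Real.log q := ⟨_, rfl⟩
    have hX0 : 0 < X := by rw [hX]; positivity
    obtain ⟨A, hA⟩ : ∃ A : ℝ, A = RR (fl ψ) (Zf riemannZeta q (2 * q)) (Zf riemannZeta q (2 * q))
      (Real.log q) := ⟨_, rfl⟩
    rw [← hA] at h3 ⊢
    rw [← hX] at h2 ⊢
    -- `C1 q` is small
    have h4 : C1 * q * (E + 1 + |cc ψ|) ≤ ε / 4 * X := by
      have h5 : 4 * C1 * (E + 1 + |cc ψ|) / ε ≤ Real.log q := by linarith
      rw [div_le_iff₀ hε] at h5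
      rw [hX]
      nlinarith
    have hNle : N ≤ X / (2 * Real.pi) + C1 * q := by
      have := (abs_le.1 h2).2
      linarith
    have e1 : A - q * (Real.log q / (2 * Real.pi)) * cc ψ = (A - N * cc ψ) +
        (N - X / (2 * Real.pi)) * cc ψ := by
      rw [hX]; ring
    rw [e1]
    refine (abs_add_le _ _).trans ?_
    rw [abs_mul]
    have h6 : |N - X / (2 * Real.pi)| * |cc ψ| ≤ C1 * q * |cc ψ| := by gcongr
    have h7 : (E + e) * N ≤ (E + e) * (X / (2 * Real.pi)) + (E + 1) * (C1 * q) := by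
      calc (E + e) * N ≤ (E + e) * (X / (2 * Real.pi) + C1 * q) := by gcongr
        _ = (E + e) * (X / (2 * Real.pi)) + (E + e) * (C1 * q) := by ring
        _ ≤ _ := by gcongr
    have h8 : e * (X / (2 * Real.pi)) ≤ ε / 4 * X := by
      have : X / (2 * Real.pi) ≤ X := div_le_self hX0.le (by linarith [Real.pi_gt_three])
      calc e * (X / (2 * Real.pi)) ≤ e * X := by gcongr
        _ ≤ _ := by gcongr
    have e2 : (E + e) * (X / (2 * Real.pi)) = E / (2 * Real.pi) * X + e * (X / (2 * Real.pi)) := by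
      ring
    have e3 : C1 * q * (E + 1 + |cc ψ|) = (E + 1) * (C1 * q) + C1 * q * |cc ψ| := by ring
    nlinarith
  have h1 := recur2 hψ (c := cc ψ) (E := E / (2 * Real.pi)) (by positivity) hblk
  intro ε hε
  filter_upwards [h1 (ε / (2 * Real.pi)) (by positivity), eventually_ge_atTop 10] with T hT hT10
  have hn := nT_pos hT10
  rw [Mp_integral hT10]
  have e1 : RR (fl ψ) (ZZ T) (ZZ T) (Real.log T) / nT T - cc ψ =
      (RR (fl ψ) (ZZ T) (ZZ T) (Real.log T) - nT T * cc ψ) / nT T := by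
    field_simp
  rw [e1, abs_div, abs_of_pos hn, div_le_iff₀ hn]
  refine hT.trans (le_of_eq ?_)
  unfold nT
  field_simp

/-- the cutoff at scale `2 ^ j` -/
noncomputable def τj (j : ℕ) (α : ℝ) : ℝ := τ (2 ^ j * α)

lemma τj_even (j : ℕ) (x : ℝ) : τj j (-x) = τj j x := by
  unfold τj
  rw [mul_neg, τ_even]

lemma τj_abs (j : ℕ) (x : ℝ) : |(2 : ℝ) ^ j * x| = 2 ^ j * |x| := by
  rw [abs_mul, abs_of_pos (by positivity)]

lemma τj_zero (j : ℕ) {x : ℝ} (hx : 1 / 2 / 2 ^ j ≤ |x|) : τj j x = 0 := by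
  unfold τj
  apply τ_zero
  rw [τj_abs]
  rw [div_le_iff₀ (by positivity)] at hx
  linarith

lemma τj_one (j : ℕ) {x : ℝ} (hx : |x| ≤ 1 / 4 / 2 ^ j) : τj j x = 1 := by
  unfold τj
  apply τ_one
  rw [τj_abs]
  rw [le_div_iff₀ (by positivity)] at hx
  linarith

lemma τj_smooth (j : ℕ) : ContDiff ℝ 2 (τj j) := by
  have h : ContDiff ℝ 2 τ := by have h := contDiff_infty.1 τ_smooth 2; exact_mod_cast h
  unfold τj
  exact h.comp (by fun_prop)

lemma τj_adm (j : ℕ) : Adm (1 / 2 / 2 ^ j) (τj j) :=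
  adm_smooth (τj_smooth j) (τj_even j) fun x hx => τj_zero j hx

/-- the difference of two cutoffs -/
noncomputable def χj (j : ℕ) (α : ℝ) : ℝ := τj j α - τj (j + 1) α

lemma χj_adm (j : ℕ) : Adm (1 / 2 / 2 ^ j) (χj j) := by
  refine adm_smooth ((τj_smooth j).sub (τj_smooth (j + 1))) (fun x => ?_) fun x hx => ?_
  · unfold χj; rw [τj_even, τj_even]
  · unfold χj
    rw [τj_zero j hx, τj_zero (j + 1), sub_zero]
    refine le_trans ?_ hx
    apply div_le_div_of_nonneg_left (by norm_num) (by positivity)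
    rw [pow_succ]
    have : (0 : ℝ) < 2 ^ j := by positivity
    linarith

lemma χj_le (j : ℕ) (x : ℝ) : |χj j x| ≤ 1 := by
  unfold χj τj
  rw [abs_le]
  have h1 := τ_nonneg (2 ^ j * x)
  have h2 := τ_le (2 ^ j * x)
  have h3 := τ_nonneg (2 ^ (j + 1) * x)
  have h4 := τ_le (2 ^ (j + 1) * x)
  constructor <;> linarith

lemma χj_zero (j : ℕ) {x : ℝ} (hx : |x| ≤ 1 / 8 / 2 ^ j) : χj j x = 0 := by
  unfold χj
  have h2 : (0 : ℝ) < 2 ^ j := by positivity
  rw [τj_one j, τj_one (j + 1), sub_self]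
  · refine hx.trans (le_of_eq ?_)
    rw [pow_succ]
    field_simp
    norm_num
  · refine hx.trans ?_
    gcongr
    norm_num

/-- **the dyadic bound** -/
theorem near_h : ∃ C : ℝ, 0 < C ∧ ∀ (g : ℝ → ℝ) (G B P : ℝ), Continuous g → (∀ s, g (-s) = g s) →
    (∀ s, |g s| ≤ G) → 0 ≤ B → 0 ≤ P → (∀ α : ℝ, |α| ≤ 1 → |wg g B α| * α ^ 2 ≤ P) →
    Near (C * P) (fun α => τ α * wg g B α) := by
  obtain ⟨C, hC, hno⟩ := near_ord
  refine ⟨16 * C, by positivity, fun g G B P hg hge hG hB hP hdec => ?_⟩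
  have hG0 : 0 ≤ G := (abs_nonneg _).trans (hG 0)
  have h2p : ∀ j : ℕ, (0 : ℝ) < 2 ^ j := fun j => by positivity
  have hw : ∀ α, |wg g B α| ≤ 2 * B * G := wg_le hB hG
  -- each piece
  have hpiece : ∀ j : ℕ, Near (C * P * 8 / 2 ^ j) (fun α => χj j α * wg g B α) := by
    intro j
    have h1 := hno (1 / 2 / 2 ^ j) (by positivity) (by
      apply div_le_self (by norm_num)
      exact one_le_pow₀ (by norm_num)) _ (adm_wg (χj_adm j) hg hge hG hB)
      (P * 64 * 4 ^ j) (fun α => by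
        rcases le_or_gt |α| (1 / 8 / 2 ^ j) with h | h
        · rw [χj_zero j h, zero_mul, abs_zero]; positivity
        rcases lt_or_ge 1 |α| with hα1 | hα1
        · rw [(χj_adm j).supp α, zero_mul, abs_zero]
          · positivity
          · refine le_trans ?_ hα1.le
            rw [div_le_one (h2p j)]
            have : (1 : ℝ) ≤ 2 ^ j := one_le_pow₀ (by norm_num)
            linarith
        · rw [abs_mul]
          have h3 : |χj j α| * |wg g B α| ≤ |wg g B α| := by
            have := χj_le j α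
            exact mul_le_of_le_one_left (abs_nonneg _) this
          refine h3.trans ?_
          have h4 : (1 / 8 / 2 ^ j) ^ 2 ≤ α ^ 2 := by
            rw [← sq_abs α]
            exact pow_le_pow_left₀ (by positivity) h.le 2
          have h5 : (1 / 8 / 2 ^ j : ℝ) ^ 2 = 1 / (64 * 4 ^ j) := by
            rw [div_pow, div_pow, ← pow_mul, mul_comm j 2, pow_mul]
            norm_num
            ring
          rw [h5] at h4
          have h6 := hdec α hα1
          have h7 : |wg g B α| * (1 / (64 * 4 ^ j)) ≤ P :=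
            (mul_le_mul_of_nonneg_left h4 (abs_nonneg _)).trans h6
          rw [mul_one_div, div_le_iff₀ (by positivity)] at h7
          linarith)
    refine h1.mono (le_of_eq ?_)
    have e8 : (1 / 2 / 2 ^ j : ℝ) ^ 3 = 1 / (8 * (4 ^ j * 2 ^ j)) := by
      rw [div_pow, ← pow_mul, mul_comm j 3, pow_mul, ← mul_pow]
      norm_num
      ring
    rw [e8]
    have : (0 : ℝ) < 4 ^ j := by positivity
    field_simp
    norm_num
  -- telescoping
  have htel : ∀ J : ℕ, Near (C * (2 * B * G) * (1 / 2 / 2 ^ J) ^ 3 + C * P * 16 * (1 - 1 / 2 ^ J))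
      (fun α => τ α * wg g B α) := by
    intro J
    have key : ∀ J : ℕ, ∀ E : ℝ, Near E (fun α => τj J α * wg g B α) →
        Near (E + C * P * 16 * (1 - 1 / 2 ^ J)) (fun α => τj 0 α * wg g B α) := by
      intro J
      induction J with
      | zero =>
        intro E h
        simpa using h
      | succ J ih =>
        intro E h
        have hA1 : Adm (1 / 2 / 2 ^ J) (fun α => χj J α * wg g B α) :=
          adm_wg (χj_adm J) hg hge hG hB
        have hA2 : Adm (1 / 2 / 2 ^ J) (fun α => τj (J + 1) α * wg g B α) := by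
          refine adm_wg (adm_smooth (τj_smooth _) (τj_even _) fun x hx => τj_zero _ ?_) hg hge hG hB
          refine le_trans ?_ hx
          apply div_le_div_of_nonneg_left (by norm_num) (h2p J)
          rw [pow_succ]
          linarith [h2p J]
        have h1 := Near.add hA1 hA2 (hpiece J) h
        have e1 : (fun x => χj J x * wg g B x + τj (J + 1) x * wg g B x) =
            fun α => τj J α * wg g B α := by
          funext x
          unfold χj; ring
        rw [e1] at h1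
        refine (ih _ h1).mono (le_of_eq ?_)
        rw [pow_succ]
        field_simp
        ring
    have h0 := hno (1 / 2 / 2 ^ J) (by positivity) (by
      apply div_le_self (by norm_num)
      exact one_le_pow₀ (by norm_num)) _ (adm_wg (τj_adm J) hg hge hG hB)
      (2 * B * G) (fun α => by
        rw [abs_mul]
        have h3 : |τj J α| ≤ 1 := by
          unfold τj
          rw [abs_of_nonneg (τ_nonneg _)]
          exact τ_le _
        calc |τj J α| * |wg g B α| ≤ 1 * (2 * B * G) :=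
              mul_le_mul h3 (hw α) (abs_nonneg _) zero_le_one
          _ = _ := one_mul _)
    have h1 := key J _ h0
    have e1 : (fun α => τj 0 α * wg g B α) = fun α => τ α * wg g B α := by
      funext α
      unfold τj
      rw [pow_zero, one_mul]
    rwa [e1] at h1
  apply Near.of_all
  intro η hη
  obtain ⟨J, hJ⟩ : ∃ J : ℕ, C * (2 * B * G) * (1 / 2 / 2 ^ J) ^ 3 ≤ η := by
    have h1 : Tendsto (fun J : ℕ => C * (2 * B * G) * (1 / 2 * (1 / 2) ^ J) ^ 3) atTop
        (𝓝 (C * (2 * B * G) * (1 / 2 * 0) ^ 3)) :=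
      (((tendsto_pow_atTop_nhds_zero_of_lt_one (by norm_num : (0 : ℝ) ≤ 1 / 2)
        (by norm_num)).const_mul _).pow 3).const_mul _
    have h2 := h1.eventually (ge_mem_nhds (show C * (2 * B * G) * (1 / 2 * 0) ^ 3 < η by
      simpa using hη))
    obtain ⟨J, hJ⟩ := h2.exists
    refine ⟨J, le_trans (le_of_eq ?_) hJ⟩
    congr 2
    rw [one_div_pow]
    ring
  refine (htel J).mono ?_
  have h3 : C * P * 16 * (1 - 1 / 2 ^ J) ≤ 16 * C * P := by
    have h4 : (0 : ℝ) ≤ 1 / 2 ^ J := by positivity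
    have h5 : 0 ≤ C * P * 16 := by positivity
    nlinarith
  linarith

end Pool.Agent.D0H51.BD
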