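import Pool.Agent.D0H51.BD.Lim
import Pool.Agent.D0H51.BD.Lay

/-! # The pair measures of the ordinates against intervals and tents -/

set_option autoImplicit false

open MeasureTheory Set Filter Topology
open scoped NNReal ENNReal

namespace Pool.Agent.D0H51.BD

open Pool.Agent.Y749.Rig
open H370 (Zf mult good_zeta mem_Zf NN zset)

/-- **intervals and tents** -/
theorem pairs_main : ∃ C : ℝ, 0 < C ∧ ∀ a : ℝ, 0 < a → ∀ᶠ T in atTop,
    |(Mp T).real (Icc (-a) a) - (1 + 2 * PP a)| ≤ C ∧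
    |∫ x, tt a x ∂(Mp T) - ∫ x, tt a x ∂mG| ≤ C / a := by
  obtain ⟨C1, hC1, hn⟩ := near_h
  obtain ⟨C2, hC2, hB⟩ := Mp_bdd
  have hM := MM_nonneg
  have hD := DD_nonneg 0
  obtain ⟨C, hC⟩ : ∃ C : ℝ, C = C1 + 1 + 8 * MM * DD 0 * C2 + 8 * MM * DD 0 * 2 := ⟨_, rfl⟩
  have hC0 : 0 < C := by rw [hC]; positivity
  refine ⟨C, hC0, fun a ha => ?_⟩
  have hC20 : 0 ≤ C2 := by linarith
  have n1 := hn (fun _ => 1) 1 a 1 continuous_const (fun _ => rfl) (fun _ => by simp) ha.le
    zero_le_one (fun α hα => wg_one a α hα) 1 one_pos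
  have n2 := hn (tt a) 1 a (1 / a) (tt_cont a) (tt_even a) (tt_le ha) ha.le
    (by positivity) (fun α _ => wg_tt ha α) (1 / a) (by positivity)
  have hA1 : Adm (1 / 2) (fun α => τ α * wg (fun _ => 1) a α) :=
    adm_wg τ_adm continuous_const (fun _ => rfl) (G := 1) (fun _ => by simp) ha.le
  have hA2 : Adm (1 / 2) (fun α => τ α * wg (tt a) a α) :=
    adm_wg τ_adm (tt_cont a) (tt_even a) (tt_le ha) ha.le
  filter_upwards [n1, n2, hB] with T h1 h2 h3
  rw [← mG_test hA1 (by norm_num)] at h1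
  rw [← mG_test hA2 (by norm_num)] at h2
  have p1 := ind_pair hC20 h3 ha.le
  have p2 := ind_pair (by norm_num) mG_bdd ha.le
  have q1 := tt_pair hC20 h3 ha
  have q2 := tt_pair (by norm_num) mG_bdd ha
  rw [mG_sym ha.le] at p2
  constructor
  · obtain ⟨x1, hx1⟩ : ∃ x : ℝ, x = ∫ x, fl (fun α => τ α * wg (fun _ => 1) a α) x ∂(Mp T) :=
      ⟨_, rfl⟩
    obtain ⟨x2, hx2⟩ : ∃ x : ℝ, x = ∫ x, fl (fun α => τ α * wg (fun _ => 1) a α) x ∂mG :=
      ⟨_, rfl⟩
    rw [← hx1] at h1 p1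
    rw [← hx2] at h1 p2
    have e1 : (Mp T).real (Icc (-a) a) - (1 + 2 * PP a) = (x1 - x2) -
        (x1 - (Mp T).real (Icc (-a) a)) + (x2 - (1 + 2 * PP a)) := by ring
    rw [e1]
    refine (abs_add_le _ _).trans ?_
    have t1 := abs_sub (x1 - x2) (x1 - (Mp T).real (Icc (-a) a))
    have hMD : 0 ≤ MM * DD 0 := mul_nonneg hM hD
    have hMDC : 0 ≤ MM * DD 0 * C2 := mul_nonneg hMD hC20
    rw [hC]
    nlinarith
  · obtain ⟨x1, hx1⟩ : ∃ x : ℝ, x = ∫ x, fl (fun α => τ α * wg (tt a) a α) x ∂(Mp T) :=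
      ⟨_, rfl⟩
    obtain ⟨x2, hx2⟩ : ∃ x : ℝ, x = ∫ x, fl (fun α => τ α * wg (tt a) a α) x ∂mG :=
      ⟨_, rfl⟩
    rw [← hx1] at h2 q1
    rw [← hx2] at h2 q2
    have e1 : ∫ x, tt a x ∂(Mp T) - ∫ x, tt a x ∂mG = (x1 - x2) -
        (x1 - ∫ x, tt a x ∂(Mp T)) + (x2 - ∫ x, tt a x ∂mG) := by ring
    rw [e1]
    refine (abs_add_le _ _).trans ?_
    have t1 := abs_sub (x1 - x2) (x1 - ∫ x, tt a x ∂(Mp T))
    have e2 : C / a = C1 * (1 / a) + 1 / a + 8 * MM * DD 0 * C2 / a + 8 * MM * DD 0 * 2 / a := by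
      rw [hC]; ring
    rw [e2]
    linarith

/-! ### evenness of the pair measure -/

lemma Mp_refl {T : ℝ} (hT : 10 ≤ T) {S : Set ℝ} (hS : MeasurableSet S) :
    (Mp T).real {x | -x ∈ S} = (Mp T).real S := by
  have hS' : MeasurableSet {x : ℝ | -x ∈ S} := measurable_neg hS
  rw [Mp_real hT hS', Mp_real hT hS]
  congr 1
  unfold RR
  rw [Finset.sum_comm]
  refine Finset.sum_congr rfl fun s _ => Finset.sum_congr rfl fun s' _ => ?_
  rw [mul_comm (mm s')]
  congr 1
  have e : (s'.im - s.im) * Real.log T / (2 * Real.pi) =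
      -((s.im - s'.im) * Real.log T / (2 * Real.pi)) := by ring
  by_cases h : (s.im - s'.im) * Real.log T / (2 * Real.pi) ∈ S
  · rw [indicator_of_mem h, indicator_of_mem]
    rw [e]
    simpa using h
  · rw [indicator_of_notMem h, indicator_of_notMem]
    rw [e]
    simpa using h

lemma Mp_sym {T : ℝ} (hT : 10 ≤ T) {u : ℝ} (hu : 0 ≤ u) :
    (Mp T).real (Icc (-u) u) = (Mp T).real {0} + 2 * (Mp T).real (Ioc 0 u) := by
  have hfin := Mp_fin T
  have h1 : Icc (-u) u = {x : ℝ | -x ∈ Ioc 0 u} ∪ ({0} ∪ Ioc 0 u) := by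
    ext x
    simp only [mem_Icc, mem_union, mem_ofPred_eq, mem_Ioc, mem_singleton_iff]
    constructor
    · rintro ⟨h1, h2⟩
      rcases lt_trichotomy x 0 with h | h | h
      · left; constructor <;> linarith
      · right; left; exact h
      · right; right; exact ⟨h, h2⟩
    · rintro (⟨h1, h2⟩ | h1 | ⟨h1, h2⟩)
      · constructor <;> linarith
      · constructor <;> linarith
      · constructor <;> linarith
  have hm : MeasurableSet ({0} ∪ Ioc 0 u : Set ℝ) := (measurableSet_singleton _).union measurableSet_Ioc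
  rw [h1, measureReal_union _ hm, measureReal_union _ measurableSet_Ioc, Mp_refl hT measurableSet_Ioc]
  · ring
  · rw [disjoint_left]
    intro x hx h2
    simp only [mem_singleton_iff] at hx
    rw [hx] at h2
    exact lt_irrefl _ h2.1
  · rw [disjoint_left]
    intro x hx h2
    have h3 : 0 < -x := hx.1
    rcases h2 with h2 | h2
    · simp only [mem_singleton_iff] at h2
      linarith
    · linarith [h2.1]

/-- **the two bounds for the pairs with positive difference** -/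
theorem pos_main : ∃ C : ℝ, 0 < C ∧ ∀ a : ℝ, 0 < a → ∀ᶠ T in atTop,
    |(Mp T).real (Ioc 0 a) - PP a| ≤ C ∧
    |1 / a * (∫ u in (0 : ℝ)..a, ((Mp T).real (Ioc 0 u) - PP u)) + ((Mp T).real {0} - 1) / 2| ≤
      C / a := by
  obtain ⟨C1, hC1, hp⟩ := pairs_main
  obtain ⟨C2, hC2, hB⟩ := Mp_bdd
  refine ⟨C1 + C2, by linarith, fun a ha => ?_⟩
  filter_upwards [hp a ha, hB, eventually_ge_atTop 10] with T h1 h2 hT
  have hfin := Mp_fin T
  have hsf : SFinite (Mp T) := inferInstance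
  have hsG := mG_sf
  obtain ⟨h1, h3⟩ := h1
  have hC20 : 0 ≤ C2 := by linarith
  constructor
  · rw [Mp_sym hT ha.le] at h1
    have h4 : (Mp T).real {0} ≤ C2 := by
      have h5 : (Mp T).real {0} ≤ (Mp T).real (Icc 0 (0 + 1)) :=
        measureReal_mono (by intro x hx; simp only [mem_singleton_iff] at hx; rw [hx]; simp)
          (measure_ne_top _ _)
      refine h5.trans ?_
      rw [Measure.real]
      exact ENNReal.toReal_le_of_le_ofReal hC20 (h2 0)
    have h6 : 0 ≤ (Mp T).real {0} := measureReal_nonneg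
    have h7 : (Mp T).real (Ioc 0 a) - PP a =
        (((Mp T).real {0} + 2 * (Mp T).real (Ioc 0 a)) - (1 + 2 * PP a)) / 2 +
          (1 - (Mp T).real {0}) / 2 := by ring
    rw [h7]
    refine (abs_add_le _ _).trans ?_
    rw [abs_div, abs_div, abs_two]
    have h8 : |1 - (Mp T).real {0}| ≤ C2 := by
      rw [abs_le]; constructor <;> linarith
    linarith
  · have l1 := layer hC20 h2 ha
    have l2 := layer (by norm_num) mG_bdd ha
    have hii : ∀ {μ : Measure ℝ}, Bdd C2 μ ∨ Bdd 2 μ → IntervalIntegrable (fun u => μ.real (Icc (-u) u))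
        volume 0 a := by
      intro μ hμ
      have hb : ∀ u v : ℝ, μ (Icc u v) < ⊤ := by
        rcases hμ with h | h
        · exact fun u v => h.lt_top u v
        · exact fun u v => h.lt_top u v
      apply MonotoneOn.intervalIntegrable
      intro u _ v _ huv
      exact measureReal_mono (Icc_subset_Icc (by linarith) huv) (hb _ _).ne
    have i1 := hii (Or.inl h2)
    have i2 := hii (Or.inr mG_bdd)
    have e1 : ∫ u in (0 : ℝ)..a, ((Mp T).real (Ioc 0 u) - PP u) =
        ∫ u in (0 : ℝ)..a, (((Mp T).real (Icc (-u) u) - mG.real (Icc (-u) u)) / 2 -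
          ((Mp T).real {0} - 1) / 2) := by
      refine intervalIntegral.integral_congr fun u hu => ?_
      rw [uIcc_of_le ha.le] at hu
      rw [Mp_sym hT hu.1, mG_sym hu.1]
      ring
    have e2 : ∫ u in (0 : ℝ)..a, ((Mp T).real (Ioc 0 u) - PP u) =
        (a * (∫ x, tt a x ∂(Mp T)) - a * ∫ x, tt a x ∂mG) / 2 - a * (((Mp T).real {0} - 1) / 2) := by
      rw [e1, intervalIntegral.integral_sub ((i1.sub i2).div_const 2) (by simp),
        intervalIntegral.integral_div, intervalIntegral.integral_sub i1 i2, l1, l2,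
        intervalIntegral.integral_const, smul_eq_mul, sub_zero]
    rw [e2]
    have e3 : 1 / a * ((a * (∫ x, tt a x ∂(Mp T)) - a * ∫ x, tt a x ∂mG) / 2 -
        a * (((Mp T).real {0} - 1) / 2)) + ((Mp T).real {0} - 1) / 2 =
        (∫ x, tt a x ∂(Mp T) - ∫ x, tt a x ∂mG) / 2 := by
      field_simp
      ring
    rw [e3, abs_div, abs_two]
    have h9 : C1 / a / 2 ≤ (C1 + C2) / a := by
      rw [div_div, div_le_div_iff₀ (by positivity) ha]
      nlinarith
    refine le_trans ?_ h9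
    linarith

end Pool.Agent.D0H51.BD
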