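import Pool.Agent.Y749.Rig.Tst3

/-! # Smooth test functions -/

set_option autoImplicit false

open MeasureTheory Set Filter Topology
open Complex (I)
open scoped FourierTransform ContDiff SchwartzMap

namespace Pool.Agent.D0H51.BD

open Pool.Agent.Y749.Rig

/-- integration by parts with a complex frequency -/
lemma ibpc {f f1 : ℝ → ℂ} (hf : ∀ α, HasDerivAt f (f1 α) α) (hf1c : Continuous f1)
    (h0 : HasCompactSupport f) (h01 : HasCompactSupport f1) (w : ℂ) :
    w * ∫ α : ℝ, f α * Complex.exp (w * α) = - ∫ α : ℝ, f1 α * Complex.exp (w * α) := by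
  have hfc : Continuous f := continuous_iff_continuousAt.2 fun α => (hf α).continuousAt
  have he : ∀ α : ℝ, HasDerivAt (fun α : ℝ => Complex.exp (w * α))
      (w * Complex.exp (w * α)) α := by
    intro α
    have h3 : HasDerivAt (fun α : ℝ => w * (α : ℂ)) w α := by
      simpa using ((hasDerivAt_id α).ofReal_comp).const_mul w
    have h4 := h3.cexp
    rw [mul_comm (Complex.exp _)] at h4
    exact h4
  have hec : Continuous fun α : ℝ => Complex.exp (w * α) := by fun_prop
  have hint : ∀ {g : ℝ → ℂ}, Continuous g → HasCompactSupport g →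
      Integrable (fun α : ℝ => g α * Complex.exp (w * α)) := by
    intro g hg hg0
    exact (hg.mul hec).integrable_of_hasCompactSupport hg0.mul_right
  have h3 := integral_mul_deriv_eq_deriv_mul_of_integrable (u := f)
    (v := fun α : ℝ => Complex.exp (w * α)) (u' := f1)
    (v' := fun α : ℝ => w * Complex.exp (w * α)) (fun x _ => hf x) (fun x _ => he x)
    (by
      have h4 := (hint hfc h0).const_mul w
      refine h4.congr (Eventually.of_forall fun α => ?_)
      simp only [Pi.mul_apply]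
      ring)
    (by
      have h4 := hint hf1c h01
      refine h4.congr (Eventually.of_forall fun α => ?_)
      simp only [Pi.mul_apply])
    (by
      have h4 := hint hfc h0
      refine h4.congr (Eventually.of_forall fun α => ?_)
      simp only [Pi.mul_apply])
  rw [← h3, ← integral_const_mul]
  congr 1
  funext α
  ring

lemma hcs_of {κ : ℝ} {E : Type*} [Zero E] {ψ : ℝ → E} (hs : ∀ x, κ ≤ |x| → ψ x = 0) :
    HasCompactSupport ψ := by
  apply HasCompactSupport.intro (isCompact_Icc (a := -κ) (b := κ))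
  intro x hx
  apply hs
  by_contra hcon
  push Not at hcon
  have := abs_lt.1 hcon
  exact hx ⟨this.1.le, this.2.le⟩

/-- smooth even functions of compact support are admissible -/
theorem adm_smooth {κ : ℝ} {ψ : ℝ → ℝ} (hψ : ContDiff ℝ 2 ψ) (he : ∀ x, ψ (-x) = ψ x)
    (hs : ∀ x, κ ≤ |x| → ψ x = 0) : Adm κ ψ := by
  have hcs : HasCompactSupport ψ := hcs_of hs
  have hpi := Real.pi_pos
  refine ⟨he, ?_, hs, ?_⟩
  · obtain ⟨K, hK⟩ := hψ.lipschitzWith_of_hasCompactSupport hcs (by norm_num)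
    refine ⟨K, fun x y => ?_⟩
    have := hK.dist_le_mul x y
    rwa [Real.dist_eq, Real.dist_eq] at this
  · have hd1 : ContDiff ℝ 1 (deriv ψ) := by
      have h2 : ContDiff ℝ (1 + 1) ψ := by
        have e : (1 + 1 : WithTop ℕ∞) = 2 := by norm_num
        rw [e]; exact hψ
      exact (contDiff_succ_iff_deriv.1 h2).2.2
    have hd2 : Continuous (deriv (deriv ψ)) := hd1.continuous_deriv le_rfl
    have hcs1 : HasCompactSupport (deriv ψ) := hcs.deriv
    have hcs2 : HasCompactSupport (deriv (deriv ψ)) := hcs1.deriv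
    have hk0 : ∀ α, HasDerivAt (fun α => (ψ α : ℂ)) ((deriv ψ α : ℝ) : ℂ) α := fun α =>
      ((hψ.differentiable (by norm_num)) α).hasDerivAt.ofReal_comp
    have hk1 : ∀ α, HasDerivAt (fun α => ((deriv ψ α : ℝ) : ℂ)) ((deriv (deriv ψ) α : ℝ) : ℂ) α :=
      fun α => ((hd1.differentiable (by norm_num)) α).hasDerivAt.ofReal_comp
    have hc0 : HasCompactSupport fun α => (ψ α : ℂ) := hcs.comp_left (g := fun x : ℝ => (x : ℂ)) rfl
    have hc1 : HasCompactSupport fun α => ((deriv ψ α : ℝ) : ℂ) :=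
      hcs1.comp_left (g := fun x : ℝ => (x : ℂ)) rfl
    have hc2 : HasCompactSupport fun α => ((deriv (deriv ψ) α : ℝ) : ℂ) :=
      hcs2.comp_left (g := fun x : ℝ => (x : ℂ)) rfl
    have hcon0 : Continuous fun α => (ψ α : ℂ) := Complex.continuous_ofReal.comp hψ.continuous
    have hcon1 : Continuous fun α => ((deriv ψ α : ℝ) : ℂ) :=
      Complex.continuous_ofReal.comp hd1.continuous
    have hcon2 : Continuous fun α => ((deriv (deriv ψ) α : ℝ) : ℂ) :=
      Complex.continuous_ofReal.comp hd2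
    -- the second derivative vanishes outside
    have hz2 : ∀ x, κ < |x| → deriv (deriv ψ) x = 0 := by
      intro x hx
      have h1 : ∀ᶠ y in 𝓝 x, deriv ψ y = 0 := by
        have h2 : ∀ᶠ y in 𝓝 x, κ < |y| := (continuous_abs.continuousAt).eventually (lt_mem_nhds hx)
        filter_upwards [eventually_eventually_nhds.2 h2] with y hy
        have : ψ =ᶠ[𝓝 y] fun _ => 0 := hy.mono fun t ht => hs t ht.le
        rw [this.deriv_eq]
        simp
      have : deriv ψ =ᶠ[𝓝 x] fun _ => 0 := h1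
      rw [this.deriv_eq]
      simp
    have hexp : ∀ α x y : ℝ, |α| ≤ κ → ‖Complex.exp (2 * Real.pi * I * (x + y * I) * α)‖ ≤
        Real.exp (2 * Real.pi * κ * |y|) := by
      intro α x y hα
      rw [Complex.norm_exp]
      apply Real.exp_le_exp.2
      have e1 : (2 * Real.pi * I * (x + y * I) * α : ℂ).re = -(2 * Real.pi * (y * α)) := by
        simp
        ring
      rw [e1]
      have : |y * α| ≤ |y| * κ := by rw [abs_mul]; gcongr
      have h3 := neg_abs_le (y * α)
      nlinarith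
    have hb : ∀ (g : ℝ → ℝ), Continuous g → HasCompactSupport g → (∀ x, κ < |x| → g x = 0) →
        ∀ x y : ℝ, ‖∫ α : ℝ, ((g α : ℝ) : ℂ) * Complex.exp (2 * Real.pi * I * (x + y * I) * α)‖ ≤
          (∫ α, |g α|) * Real.exp (2 * Real.pi * κ * |y|) := by
      intro g hg hgc hg0 x y
      refine (norm_integral_le_integral_norm _).trans ?_
      rw [← integral_mul_const]
      have hgi : Integrable fun α => |g α| := (hg.abs).integrable_of_hasCompactSupport hgc.abs
      refine integral_mono_of_nonneg (ae_of_all _ fun α => norm_nonneg _) (hgi.mul_const _)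
        (ae_of_all _ fun α => ?_)
      simp only
      rw [norm_mul, Complex.norm_real, Real.norm_eq_abs]
      rcases le_or_gt |α| κ with h | h
      · exact mul_le_mul_of_nonneg_left (hexp α x y h) (abs_nonneg _)
      · rw [hg0 α h]; simp
    obtain ⟨B0, hB0⟩ : ∃ B : ℝ, B = ∫ α, |ψ α| := ⟨_, rfl⟩
    obtain ⟨B2, hB2⟩ : ∃ B : ℝ, B = ∫ α, |deriv (deriv ψ) α| := ⟨_, rfl⟩
    refine ⟨B0 + B2, fun x y => ?_⟩
    have hFL : FL ψ (x + y * I) = ∫ α : ℝ, (ψ α : ℂ) *
        Complex.exp (2 * Real.pi * I * (x + y * I) * α) := by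
      unfold FL
      refine integral_congr_ae (ae_of_all _ fun α => ?_)
      simp only
      congr 2
      ring
    have h1 := hb ψ hψ.continuous hcs (fun x hx => hs x hx.le) x y
    have h2 := hb (deriv (deriv ψ)) hd2 hcs2 hz2 x y
    rw [← hFL, ← hB0] at h1
    rw [← hB2] at h2
    have i1 := ibpc hk0 hcon1 hc0 hc1 (2 * Real.pi * I * (x + y * I))
    have i2 := ibpc hk1 hcon2 hc1 hc2 (2 * Real.pi * I * (x + y * I))
    rw [← hFL] at i1
    have i3 : (2 * Real.pi * I * (x + y * I)) ^ 2 * FL ψ (x + y * I) =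
        ∫ α : ℝ, ((deriv (deriv ψ) α : ℝ) : ℂ) *
          Complex.exp (2 * Real.pi * I * (x + y * I) * α) := by
      rw [pow_two, mul_assoc, i1, mul_neg, i2, neg_neg]
    have i4 := congrArg norm i3
    rw [norm_mul, norm_pow] at i4
    have hx2 : x ^ 2 ≤ ‖(2 * Real.pi * I * (x + y * I) : ℂ)‖ ^ 2 := by
      rw [norm_mul, norm_mul, norm_mul, Complex.norm_I, mul_one, Complex.norm_real,
        Real.norm_eq_abs, abs_of_pos hpi, mul_pow]
      have h5 : x ^ 2 ≤ ‖(x + y * I : ℂ)‖ ^ 2 := by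
        rw [← Complex.normSq_eq_norm_sq, Complex.normSq_apply]
        simp
        nlinarith [sq_nonneg y]
      have h6 : (1 : ℝ) ≤ (‖(2 : ℂ)‖ * Real.pi) ^ 2 := by
        have : ‖(2 : ℂ)‖ = 2 := by simp
        rw [this]
        have := Real.pi_gt_three
        nlinarith
      nlinarith [sq_nonneg x]
    have h7 : x ^ 2 * ‖FL ψ (x + y * I)‖ ≤ B2 * Real.exp (2 * Real.pi * κ * |y|) := by
      calc x ^ 2 * ‖FL ψ (x + y * I)‖ ≤
            ‖(2 * Real.pi * I * (x + y * I) : ℂ)‖ ^ 2 * ‖FL ψ (x + y * I)‖ := by gcongr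
        _ ≤ _ := by rw [i4]; exact h2
    rw [le_div_iff₀ (by positivity)]
    nlinarith

lemma Adm.add {κ : ℝ} {ψ φ : ℝ → ℝ} (h : Adm κ ψ) (h' : Adm κ φ) : Adm κ (fun x => ψ x + φ x) := by
  have hF : ∀ z, FL (fun x => ψ x + φ x) z = FL ψ z + FL φ z := by
    intro z
    unfold FL
    rw [← integral_add (int_exp_mul h z) (int_exp_mul h' z)]
    refine integral_congr_ae (ae_of_all _ fun α => ?_)
    simp only
    push_cast; ring
  obtain ⟨K, hK⟩ := h.lip
  obtain ⟨K', hK'⟩ := h'.lip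
  obtain ⟨C, hC⟩ := h.dec
  obtain ⟨C', hC'⟩ := h'.dec
  refine ⟨fun x => by rw [h.even, h'.even], ⟨K + K', fun x y => ?_⟩, fun x hx => by
    rw [h.supp x hx, h'.supp x hx, add_zero], ⟨C + C', fun x y => ?_⟩⟩
  · have e : ψ x + φ x - (ψ y + φ y) = (ψ x - ψ y) + (φ x - φ y) := by ring
    rw [e, add_mul]
    exact (abs_add_le _ _).trans (add_le_add (hK x y) (hK' x y))
  · rw [hF]
    refine (norm_add_le _ _).trans ((add_le_add (hC x y) (hC' x y)).trans (le_of_eq ?_))
    ring

lemma fl_add {ψ φ : ℝ → ℝ} (h : Integrable ψ) (h' : Integrable φ) (x : ℝ) :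
    fl (fun x => ψ x + φ x) x = fl ψ x + fl φ x := by
  unfold fl
  have hb : ∀ {g : ℝ → ℝ}, Integrable g → Integrable fun α => g α * Real.cos (2 * Real.pi * α * x) := by
    intro g hg
    refine hg.mul_bdd (c := 1) ?_ (ae_of_all _ fun α => Real.abs_cos_le_one _)
    apply Continuous.aestronglyMeasurable
    fun_prop
  rw [← integral_add (hb h) (hb h')]
  refine integral_congr_ae (ae_of_all _ fun α => ?_)
  simp only
  ring

/-- the transform of a weight on `[-B, B]` -/
noncomputable def wg (g : ℝ → ℝ) (B α : ℝ) : ℝ := ∫ s in (-B)..B, g s * Real.cos (2 * Real.pi * α * s)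

lemma wg_even (g : ℝ → ℝ) (B α : ℝ) : wg g B (-α) = wg g B α := by
  unfold wg
  refine intervalIntegral.integral_congr fun s _ => ?_
  show g s * Real.cos (2 * Real.pi * -α * s) = g s * Real.cos (2 * Real.pi * α * s)
  rw [show 2 * Real.pi * -α * s = -(2 * Real.pi * α * s) by ring, Real.cos_neg]

lemma wg_le {g : ℝ → ℝ} {B G : ℝ} (hB : 0 ≤ B) (hG : ∀ s, |g s| ≤ G) (α : ℝ) :
    |wg g B α| ≤ 2 * B * G := by
  have := intervalIntegral.norm_integral_le_of_norm_le_const (a := -B) (b := B) (C := G)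
    (f := fun s => g s * Real.cos (2 * Real.pi * α * s)) (fun s _ => by
      rw [norm_mul]
      calc ‖g s‖ * ‖Real.cos (2 * Real.pi * α * s)‖ ≤ G * 1 :=
            mul_le_mul (hG s) (Real.abs_cos_le_one _) (norm_nonneg _)
              ((abs_nonneg _).trans (hG s))
        _ = G := mul_one _)
  rw [Real.norm_eq_abs, abs_of_nonneg (by linarith : 0 ≤ B - -B)] at this
  unfold wg
  linarith

lemma wg_lip {g : ℝ → ℝ} (hg : Continuous g) {B G : ℝ} (hB : 0 ≤ B) (hG : ∀ s, |g s| ≤ G)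
    (α β : ℝ) : |wg g B α - wg g B β| ≤ (G * (2 * Real.pi * B) * (2 * B)) * |α - β| := by
  have hc : ∀ α : ℝ, Continuous fun s : ℝ => g s * Real.cos (2 * Real.pi * α * s) := by
    intro α; fun_prop
  have hG0 : 0 ≤ G := (abs_nonneg _).trans (hG 0)
  unfold wg
  rw [← intervalIntegral.integral_sub ((hc α).intervalIntegrable _ _)
    ((hc β).intervalIntegrable _ _)]
  have := intervalIntegral.norm_integral_le_of_norm_le_const (a := -B) (b := B)
    (C := G * (2 * Real.pi * B * |α - β|))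
    (f := fun s => g s * Real.cos (2 * Real.pi * α * s) - g s * Real.cos (2 * Real.pi * β * s))
    (fun s hs => ?_)
  · rw [Real.norm_eq_abs, abs_of_nonneg (by linarith : 0 ≤ B - -B)] at this
    refine this.trans (le_of_eq ?_)
    ring
  · rw [uIoc_of_le (by linarith)] at hs
    have hs' : |s| ≤ B := abs_le.2 ⟨hs.1.le, hs.2⟩
    rw [Real.norm_eq_abs, ← mul_sub, abs_mul]
    refine mul_le_mul (hG s) ?_ (abs_nonneg _) hG0
    refine (Real.abs_cos_sub_cos_le _ _).trans ?_
    have hpi := Real.pi_pos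
    rw [show 2 * Real.pi * α * s - 2 * Real.pi * β * s = 2 * Real.pi * (s * (α - β)) by ring,
      abs_mul (2 * Real.pi) _, abs_of_pos (show 0 < 2 * Real.pi by positivity), abs_mul s _,
      ← mul_assoc]
    gcongr

lemma wg_exp {g : ℝ → ℝ} (hg : Continuous g) (hge : ∀ s, g (-s) = g s) (B α : ℝ) :
    ((wg g B α : ℝ) : ℂ) =
      ∫ s in (-B)..B, (g s : ℂ) * Complex.exp (2 * Real.pi * I * α * s) := by
  have h1 : ∀ s : ℝ, (g s : ℂ) * Complex.exp (2 * Real.pi * I * α * s) =
      ((g s * Real.cos (2 * Real.pi * α * s) : ℝ) : ℂ) +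
        ((g s * Real.sin (2 * Real.pi * α * s) : ℝ) : ℂ) * I := by
    intro s
    rw [exp_split α s]
    push_cast; ring
  simp_rw [h1]
  have c1 : Continuous fun s : ℝ => ((g s * Real.cos (2 * Real.pi * α * s) : ℝ) : ℂ) := by fun_prop
  have c2 : Continuous fun s : ℝ => ((g s * Real.sin (2 * Real.pi * α * s) : ℝ) : ℂ) * I := by
    fun_prop
  rw [intervalIntegral.integral_add (c1.intervalIntegrable _ _) (c2.intervalIntegrable _ _),
    intervalIntegral.integral_mul_const, intervalIntegral.integral_ofReal,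
    intervalIntegral.integral_ofReal]
  have h2 : ∫ s in (-B)..B, g s * Real.sin (2 * Real.pi * α * s) = 0 := by
    have h3 := intervalIntegral.integral_comp_neg (a := -B) (b := B)
      fun s => g s * Real.sin (2 * Real.pi * α * s)
    rw [neg_neg] at h3
    have h4 : ∀ s, g (-s) * Real.sin (2 * Real.pi * α * -s) =
        - (g s * Real.sin (2 * Real.pi * α * s)) := by
      intro s
      rw [mul_neg, Real.sin_neg, hge]; ring
    simp_rw [h4] at h3
    rw [intervalIntegral.integral_neg] at h3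
    linarith
  rw [h2]
  simp [wg]

lemma FL_wg {κ : ℝ} {ψ g : ℝ → ℝ} (h : Adm κ ψ) (hg : Continuous g) (hge : ∀ s, g (-s) = g s)
    {B : ℝ} (hB : 0 ≤ B) (z : ℂ) :
    FL (fun α => ψ α * wg g B α) z = ∫ s in (-B)..B, (g s : ℂ) * FL ψ (z + s) := by
  unfold FL
  have h0 : ∀ s : ℝ, (g s : ℂ) * ∫ α : ℝ, (ψ α : ℂ) * Complex.exp (2 * Real.pi * I * α * (z + s)) =
      ∫ α : ℝ, (g s : ℂ) * ((ψ α : ℂ) * Complex.exp (2 * Real.pi * I * α * (z + s))) := fun s =>
    (integral_const_mul _ _).symm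
  simp_rw [h0]
  rw [intervalIntegral_integral_swap]
  · refine integral_congr_ae (ae_of_all _ fun α => ?_)
    simp only
    have h1 : ∀ s : ℝ, (g s : ℂ) * ((ψ α : ℂ) * Complex.exp (2 * Real.pi * I * α * (z + s))) =
        (ψ α : ℂ) * Complex.exp (2 * Real.pi * I * α * z) *
          ((g s : ℂ) * Complex.exp (2 * Real.pi * I * α * s)) := by
      intro s
      rw [mul_add, Complex.exp_add]; ring
    simp_rw [h1]
    rw [intervalIntegral.integral_const_mul, ← wg_exp hg hge]
    push_cast; ring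
  · have hm : Integrable (fun p : ℝ × ℝ => (ψ p.2 : ℂ) * Complex.exp (2 * Real.pi * I * p.2 * z))
        ((volume.restrict (uIoc (-B) B)).prod volume) := by
      have : IsFiniteMeasure (volume.restrict (uIoc (-B) B)) := by
        constructor
        rw [Measure.restrict_apply_univ, uIoc_of_le (by linarith), Real.volume_Ioc]
        exact ENNReal.ofReal_lt_top
      exact (int_exp_mul h z).comp_snd _
    obtain ⟨G, hG⟩ : ∃ G : ℝ, ∀ s ∈ Icc (-B) B, ‖g s‖ ≤ G :=
      isCompact_Icc.exists_bound_of_continuousOn hg.continuousOn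
    have h2 : Integrable (fun p : ℝ × ℝ => (ψ p.2 : ℂ) * Complex.exp (2 * Real.pi * I * p.2 * z) *
        ((g p.1 : ℂ) * Complex.exp (2 * Real.pi * I * p.2 * p.1)))
        ((volume.restrict (uIoc (-B) B)).prod volume) := by
      refine hm.mul_bdd (c := G) ?_ ?_
      · apply Continuous.aestronglyMeasurable
        fun_prop
      · have hae : ∀ᵐ p : ℝ × ℝ ∂((volume.restrict (uIoc (-B) B)).prod volume),
            p.1 ∈ uIoc (-B) B :=
          Measure.quasiMeasurePreserving_fst.ae (ae_restrict_mem measurableSet_uIoc)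
        filter_upwards [hae] with p hp
        rw [uIoc_of_le (by linarith)] at hp
        rw [norm_mul, Complex.norm_exp]
        simp only [Complex.norm_real]
        have : (2 * Real.pi * I * p.2 * p.1 : ℂ).re = 0 := by simp
        rw [this, Real.exp_zero, mul_one]
        exact hG _ ⟨hp.1.le, hp.2⟩
    refine h2.congr (ae_of_all _ fun p => ?_)
    simp only [Function.uncurry]
    rw [mul_add, Complex.exp_add]; ring

lemma adm_wg {κ : ℝ} {ψ g : ℝ → ℝ} (h : Adm κ ψ) (hg : Continuous g) (hge : ∀ s, g (-s) = g s)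
    {G : ℝ} (hG : ∀ s, |g s| ≤ G) {B : ℝ} (hB : 0 ≤ B) : Adm κ (fun α => ψ α * wg g B α) := by
  have hG0 : 0 ≤ G := (abs_nonneg _).trans (hG 0)
  refine ⟨?_, ?_, ?_, ?_⟩
  · intro x
    rw [h.even, wg_even]
  · obtain ⟨K, hK⟩ := h.lip
    obtain ⟨M, hM, hM2⟩ := h.bdd
    refine ⟨2 * B * G * K + M * (G * (2 * Real.pi * B) * (2 * B)), fun x y => ?_⟩
    have e : ψ x * wg g B x - ψ y * wg g B y =
        (ψ x - ψ y) * wg g B x + ψ y * (wg g B x - wg g B y) := by ring
    rw [e]
    refine (abs_add_le _ _).trans ?_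
    rw [abs_mul, abs_mul]
    have h1 : |ψ x - ψ y| * |wg g B x| ≤ K * |x - y| * (2 * B * G) :=
      mul_le_mul (hK x y) (wg_le hB hG x) (abs_nonneg _) ((abs_nonneg _).trans (hK x y))
    have h2 : |ψ y| * |wg g B x - wg g B y| ≤ M * ((G * (2 * Real.pi * B) * (2 * B)) * |x - y|) :=
      mul_le_mul (hM2 y) (wg_lip hg hB hG x y) (abs_nonneg _) hM
    linarith
  · intro x hx
    rw [h.supp x hx, zero_mul]
  · obtain ⟨C, hC⟩ := h.dec
    have hC0 : 0 ≤ C := by
      have := (norm_nonneg _).trans (hC 0 0)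
      simpa using this
    refine ⟨G * (C * (2 * (1 + B ^ 2))) * (2 * B), fun x y => ?_⟩
    rw [FL_wg h hg hge hB]
    have := intervalIntegral.norm_integral_le_of_norm_le_const (a := -B) (b := B)
      (C := G * (C * (2 * (1 + B ^ 2)) * Real.exp (2 * Real.pi * κ * |y|) / (1 + x ^ 2)))
      (f := fun s : ℝ => (g s : ℂ) * FL ψ (x + y * I + s)) (fun s hs => ?_)
    · rw [abs_of_nonneg (by linarith : 0 ≤ B - -B)] at this
      refine this.trans (le_of_eq ?_)
      ring
    · rw [uIoc_of_le (by linarith)] at hs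
      have hs' : |s| ≤ B := abs_le.2 ⟨hs.1.le, hs.2⟩
      rw [norm_mul, Complex.norm_real]
      refine mul_le_mul (hG s) ?_ (norm_nonneg _) hG0
      have h1 := hC (x + s) y
      have h2 : (((x + s : ℝ) : ℂ) + y * I) = x + y * I + s := by push_cast; ring
      rw [h2] at h1
      refine h1.trans ?_
      have h3 := shift_bound (x := x) hs'
      calc C * Real.exp (2 * Real.pi * κ * |y|) / (1 + (x + s) ^ 2) =
            C * Real.exp (2 * Real.pi * κ * |y|) * (1 / (1 + (x + s) ^ 2)) := by ring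
        _ ≤ C * Real.exp (2 * Real.pi * κ * |y|) * ((2 * (1 + B ^ 2)) / (1 + x ^ 2)) := by gcongr
        _ = _ := by ring

/-- on the real line: a convolution -/
lemma fl_wg {κ : ℝ} {ψ g : ℝ → ℝ} (h : Adm κ ψ) (hg : Continuous g) (hge : ∀ s, g (-s) = g s)
    {G : ℝ} (hG : ∀ s, |g s| ≤ G) {B : ℝ} (hB : 0 ≤ B) (x : ℝ) :
    fl (fun α => ψ α * wg g B α) x = ∫ s in (-B)..B, g s * fl ψ (x + s) := by
  have h1 := FL_wg h hg hge hB (x : ℂ)
  have hA := adm_wg h hg hge hG hB
  rw [FL_real hA.int hA.even] at h1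
  have h2 : ∀ s : ℝ, (g s : ℂ) * FL ψ ((x : ℂ) + s) = ((g s * fl ψ (x + s) : ℝ) : ℂ) := by
    intro s
    push_cast
    rw [← FL_real h.int h.even]
    push_cast; rfl
  simp_rw [h2] at h1
  rw [intervalIntegral.integral_ofReal] at h1
  exact_mod_cast h1

/-- the cutoff function -/
noncomputable def τ (α : ℝ) : ℝ := Real.smoothTransition ((1 / 4 - α ^ 2) * (16 / 3))

lemma τ_smooth : ContDiff ℝ ∞ τ := by
  unfold τ
  exact Real.smoothTransition.contDiff.comp (by fun_prop)

lemma τ_even (x : ℝ) : τ (-x) = τ x := by unfold τ; rw [neg_sq]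

lemma τ_nonneg (x : ℝ) : 0 ≤ τ x := Real.smoothTransition.nonneg _

lemma τ_le (x : ℝ) : τ x ≤ 1 := Real.smoothTransition.le_one _

lemma τ_zero {x : ℝ} (hx : 1 / 2 ≤ |x|) : τ x = 0 := by
  unfold τ
  apply Real.smoothTransition.zero_of_nonpos
  have : 1 / 4 ≤ x ^ 2 := by
    rw [← sq_abs]; nlinarith
  nlinarith

lemma τ_one {x : ℝ} (hx : |x| ≤ 1 / 4) : τ x = 1 := by
  unfold τ
  apply Real.smoothTransition.one_of_one_le
  have : x ^ 2 ≤ 1 / 16 := by
    rw [← sq_abs]; nlinarith [abs_nonneg x]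
  nlinarith

lemma τ_adm : Adm (1 / 2) τ :=
  adm_smooth (by have h := contDiff_infty.1 τ_smooth 2; exact_mod_cast h) τ_even
    fun x hx => τ_zero hx

/-- the kernel decays fast -/
lemma τ_dec (n : ℕ) : ∃ B : ℝ, 0 < B ∧ ∀ x : ℝ, |x| ^ n * |fl τ x| ≤ B := by
  have hcs : HasCompactSupport fun α => ((τ α : ℝ) : ℂ) :=
    (τ_adm.hcs).comp_left (g := fun x : ℝ => (x : ℂ)) rfl
  have hsm : ContDiff ℝ ∞ fun α => ((τ α : ℝ) : ℂ) :=
    Complex.ofRealCLM.contDiff.comp τ_smooth
  obtain ⟨f, hf⟩ : ∃ f : 𝓢(ℝ, ℂ), ∀ x, f x = ((τ x : ℝ) : ℂ) := ⟨hcs.toSchwartzMap hsm, fun x => rfl⟩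
  obtain ⟨C, hC, h⟩ := (𝓕 f : 𝓢(ℝ, ℂ)).decay n 0
  refine ⟨C, hC, fun x => ?_⟩
  have h1 := h x
  rw [norm_iteratedFDeriv_zero] at h1
  have h2 : (𝓕 f : 𝓢(ℝ, ℂ)) x = ((fl τ x : ℝ) : ℂ) := by
    rw [SchwartzMap.fourier_coe, ← four_eq τ_adm.int τ_adm.even x]
    have : (⇑f) = fun α : ℝ => ((τ α : ℝ) : ℂ) := funext hf
    rw [this]
  rw [h2, Complex.norm_real] at h1
  exact h1

end Pool.Agent.D0H51.BD
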