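import Pool.Agent.D0H51.BD.Zer
import Pool.Agent.D0H51.BD.Gv
import Pool.Agent.W54.TCF.NT

/-! # The number variance of the ordinates -/

set_option autoImplicit false

open MeasureTheory Set Filter Topology

namespace Pool.Agent.D0H51.BD

open Pool.Agent.Y749.Rig
open H370 (Zf mult good_zeta mem_Zf NN zset)

/-- the number of zeros with ordinate in `(t, t + h]` -/
noncomputable def Nint (t h : ℝ) : ℕ := ∑ᶠ s ∈ {s : ℂ | s ∈ NT ∧ t < s.im ∧ s.im ≤ t + h}, zm s

/-- the same restricted to the zeros up to a height -/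
noncomputable def nn (U h t : ℝ) : ℝ :=
  ∑ s ∈ ZZ U, mm s * (Ico (s.im - h) s.im).indicator (fun _ => (1 : ℝ)) t

lemma Nint_eq {t h U : ℝ} (ht : 0 ≤ t) (hU : t + h ≤ U) : (Nint t h : ℝ) = nn U h t := by
  classical
  unfold Nint nn
  have e1 : {s : ℂ | s ∈ NT ∧ t < s.im ∧ s.im ≤ t + h} =
      ↑((ZZ U).filter (fun s : ℂ => t < s.im ∧ s.im ≤ t + h)) := by
    ext s
    rw [Finset.coe_filter, mem_ofPred_eq, mem_ofPred_eq, mem_ZZ]
    constructor
    · rintro ⟨⟨a1, a2, a3⟩, h1, h2⟩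
      exact ⟨⟨a1, a2, a3, by linarith, by linarith⟩, h1, h2⟩
    · rintro ⟨⟨a1, a2, a3, a4, a5⟩, h1, h2⟩
      exact ⟨⟨a1, a2, a3⟩, h1, h2⟩
  rw [e1, finsum_mem_coe_finset, Finset.sum_filter]
  push_cast
  refine Finset.sum_congr rfl fun s _ => ?_
  by_cases h1 : t < s.im ∧ s.im ≤ t + h
  · rw [if_pos h1, indicator_of_mem (show t ∈ Ico (s.im - h) s.im from ⟨by linarith [h1.2], h1.1⟩),
      mul_one]
    rfl
  · rw [if_neg h1, indicator_of_notMem (fun h2 => h1 ⟨h2.2, by linarith [h2.1]⟩), mul_zero]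

lemma Ico_int {u v T : ℝ} (hT : 0 ≤ T) (hu : 0 ≤ u) (hv : v ≤ T) :
    ∫ t in (0 : ℝ)..T, (Ico u v).indicator (fun _ => (1 : ℝ)) t = max 0 (v - u) := by
  rw [intervalIntegral.integral_of_le hT, ← integral_Icc_eq_integral_Ioc,
    integral_indicator measurableSet_Ico, setIntegral_const, smul_eq_mul, mul_one, Measure.real,
    Measure.restrict_apply measurableSet_Ico]
  have h1 : Ico u v ∩ Icc 0 T = Ico u v := by
    rw [inter_eq_left]
    intro t ht
    exact ⟨by linarith [ht.1], by linarith [ht.2]⟩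
  rw [h1, Real.volume_Ico, ENNReal.toReal_ofReal', max_comm]

lemma Ico_ii (u v a b : ℝ) :
    IntervalIntegrable ((Ico u v).indicator (fun _ => (1 : ℝ))) volume a b := by
  rw [intervalIntegrable_iff]
  refine Integrable.indicator ?_ measurableSet_Ico
  exact integrableOn_const (by
    have : volume (uIoc a b) < ⊤ := measure_Ioc_lt_top
    exact this.ne)

lemma ind_mul (A B : Set ℝ) (t : ℝ) : (A ∩ B).indicator (fun _ => (1 : ℝ)) t =
    A.indicator (fun _ => (1 : ℝ)) t * B.indicator (fun _ => (1 : ℝ)) t := by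
  by_cases hA : t ∈ A <;> by_cases hB : t ∈ B <;> simp [hA, hB]

lemma sum_ii {ι : Type*} (S : Finset ι) (c u v : ι → ℝ) (a b : ℝ) :
    IntervalIntegrable (fun t => ∑ s ∈ S, c s * (Ico (u s) (v s)).indicator (fun _ => (1 : ℝ)) t)
      volume a b := by
  have e : (fun t => ∑ s ∈ S, c s * (Ico (u s) (v s)).indicator (fun _ => (1 : ℝ)) t) =
      ∑ s ∈ S, fun t => c s * (Ico (u s) (v s)).indicator (fun _ => (1 : ℝ)) t := by
    funext t
    rw [Finset.sum_apply]
  rw [e]
  exact IntervalIntegrable.sum _ fun s _ => (Ico_ii _ _ _ _).const_mul _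

lemma nn_ii (U h a b : ℝ) : IntervalIntegrable (nn U h) volume a b := by
  have e : nn U h = ∑ s ∈ ZZ U, fun t => mm s * (Ico (s.im - h) s.im).indicator (fun _ => (1 : ℝ)) t := by
    funext t
    unfold nn
    rw [Finset.sum_apply]
  rw [e]
  exact IntervalIntegrable.sum _ fun s _ => (Ico_ii _ _ _ _).const_mul _

lemma nn_nonneg (U h t : ℝ) : 0 ≤ nn U h t :=
  Finset.sum_nonneg fun s _ => mul_nonneg (mm_nonneg s) (indicator_nonneg (fun _ _ => zero_le_one) _)

/-- the mean -/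
lemma nn_int {T h g : ℝ} (hT : 0 ≤ T) (hh : 0 ≤ h) (hg : ∀ s ∈ NT, 0 ≤ s.im → g ≤ s.im)
    (hhg : h ≤ g) : ∫ t in (0 : ℝ)..T, nn T h t = h * ∑ s ∈ ZZ T, mm s := by
  unfold nn
  rw [intervalIntegral.integral_finsetSum fun s _ => (Ico_ii _ _ _ _).const_mul _, Finset.mul_sum]
  refine Finset.sum_congr rfl fun s hs => ?_
  rw [mem_ZZ] at hs
  obtain ⟨a1, a2, a3, a4, a5⟩ := hs
  have := hg s ⟨a1, a2, a3⟩ a4
  rw [intervalIntegral.integral_const_mul, Ico_int hT (by linarith) a5, max_eq_right (by linarith)]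
  ring

/-- the mean square -/
lemma nn_sq {T a g : ℝ} (hT : 10 ≤ T) (ha : 0 < a) (hg : ∀ s ∈ NT, 0 ≤ s.im → g ≤ s.im)
    (hhg : 2 * Real.pi * a / Real.log T ≤ g) :
    ∫ t in (0 : ℝ)..T, nn T (2 * Real.pi * a / Real.log T) t ^ 2 =
      2 * Real.pi * a / Real.log T * (nT T * ∫ x, tt a x ∂(Mp T)) := by
  have hL : 0 < Real.log T := Real.log_pos (by linarith)
  have hpi := Real.pi_pos
  have hn := nT_pos hT
  obtain ⟨h, hh⟩ : ∃ h : ℝ, h = 2 * Real.pi * a / Real.log T := ⟨_, rfl⟩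
  rw [← hh] at hhg ⊢
  have hh0 : 0 < h := by rw [hh]; positivity
  rw [Mp_integral hT, mul_div_cancel₀ _ hn.ne']
  have e1 : ∀ t, nn T h t ^ 2 = ∑ s ∈ ZZ T, ∑ s' ∈ ZZ T, mm s * mm s' *
      (Ico (max (s.im - h) (s'.im - h)) (min s.im s'.im)).indicator (fun _ => (1 : ℝ)) t := by
    intro t
    unfold nn
    rw [pow_two, Finset.sum_mul_sum]
    refine Finset.sum_congr rfl fun s _ => Finset.sum_congr rfl fun s' _ => ?_
    rw [← Ico_inter_Ico, ind_mul]
    ring
  simp_rw [e1]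
  rw [intervalIntegral.integral_finsetSum fun s _ => sum_ii (ZZ T) (fun s' => mm s * mm s')
    (fun s' => max (s.im - h) (s'.im - h)) (fun s' => min s.im s'.im) _ _]
  unfold RR
  rw [Finset.mul_sum]
  refine Finset.sum_congr rfl fun s hs => ?_
  rw [intervalIntegral.integral_finsetSum fun s' _ => (Ico_ii _ _ _ _).const_mul _, Finset.mul_sum]
  refine Finset.sum_congr rfl fun s' hs' => ?_
  rw [mem_ZZ] at hs hs'
  obtain ⟨a1, a2, a3, a4, a5⟩ := hs
  obtain ⟨b1, b2, b3, b4, b5⟩ := hs'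
  have g1 := hg s ⟨a1, a2, a3⟩ a4
  have g2 := hg s' ⟨b1, b2, b3⟩ b4
  rw [intervalIntegral.integral_const_mul, Ico_int (by linarith)
    (le_max_of_le_left (by linarith)) ((min_le_left _ _).trans a5)]
  have e2 : min s.im s'.im - max (s.im - h) (s'.im - h) = h - |s.im - s'.im| := by
    rcases le_total s.im s'.im with h1 | h1
    · rw [min_eq_left h1, max_eq_right (by linarith), abs_of_nonpos (by linarith)]
      ring
    · rw [min_eq_right h1, max_eq_left (by linarith), abs_of_nonneg (by linarith)]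
      ring
  have e3 : max 0 (h - |s.im - s'.im|) =
      h * tt a ((s.im - s'.im) * Real.log T / (2 * Real.pi)) := by
    unfold tt
    rw [mul_max_of_nonneg _ _ hh0.le, mul_zero]
    congr 1
    rw [abs_div, abs_mul, abs_of_pos hL, abs_of_pos (show 0 < 2 * Real.pi by positivity), hh]
    field_simp
  rw [e2, e3]
  ring

/-- few zeros in short intervals -/
lemma nn_le : ∃ C : ℝ, 0 < C ∧ ∀ T : ℝ, 10 ≤ T → ∀ t h : ℝ, T - 1 ≤ t → t ≤ T → 0 ≤ h → h ≤ 1 →
    ∀ U : ℝ, U ≤ T + 1 → nn U h t ≤ C * Real.log T := by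
  classical
  obtain ⟨C, hC, hz⟩ := H370.zcount good_zeta
  refine ⟨2 * C, by positivity, fun T hT t h ht1 ht2 hh0 hh1 U hU => ?_⟩
  have hL : 0 < Real.log T := Real.log_pos (by linarith)
  have h1 := hz (t + 1) (by linarith)
  rw [show t + 1 - 1 = t by ring, show t + 1 + 1 = t + 2 by ring, ← NN_eq' (by linarith)] at h1
  have h2 : nn U h t ≤ ∑ s ∈ Zf riemannZeta t (t + 2), mm s := by
    unfold nn
    rw [← Finset.sum_filter_add_sum_filter_not (ZZ U) (fun s => s ∈ Zf riemannZeta t (t + 2))]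
    have h3 : ∑ s ∈ (ZZ U).filter (fun s => ¬ s ∈ Zf riemannZeta t (t + 2)),
        mm s * (Ico (s.im - h) s.im).indicator (fun _ => (1 : ℝ)) t = 0 := by
      refine Finset.sum_eq_zero fun s hs => ?_
      rw [Finset.mem_filter, mem_ZZ, mem_Zf good_zeta (by linarith)] at hs
      rw [indicator_of_notMem, mul_zero]
      intro h4
      apply hs.2
      obtain ⟨⟨a1, a2, a3, a4, a5⟩, -⟩ := hs
      exact ⟨a2, a3, h4.2, by linarith [h4.1], a1⟩
    rw [h3, add_zero]
    calc ∑ s ∈ (ZZ U).filter (fun s => s ∈ Zf riemannZeta t (t + 2)),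
          mm s * (Ico (s.im - h) s.im).indicator (fun _ => (1 : ℝ)) t ≤
          ∑ s ∈ (ZZ U).filter (fun s => s ∈ Zf riemannZeta t (t + 2)), mm s := by
          refine Finset.sum_le_sum fun s _ => ?_
          have h5 : (Ico (s.im - h) s.im).indicator (fun _ => (1 : ℝ)) t ≤ 1 := by
            by_cases h6 : t ∈ Ico (s.im - h) s.im
            · rw [indicator_of_mem h6]
            · rw [indicator_of_notMem h6]; exact zero_le_one
          calc _ ≤ mm s * 1 := mul_le_mul_of_nonneg_left h5 (mm_nonneg s)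
            _ = _ := mul_one _
      _ ≤ _ := Finset.sum_le_sum_of_subset_of_nonneg (fun s hs => (Finset.mem_filter.1 hs).2)
          fun s _ _ => mm_nonneg s
  have h3 : Real.log (t + 1) ≤ 2 * Real.log T := by
    have e : 2 * Real.log T = Real.log (T ^ 2) := by
      rw [Real.log_pow]; push_cast; ring
    rw [e]
    apply Real.log_le_log (by linarith)
    nlinarith
  calc nn U h t ≤ _ := h2
    _ ≤ C * Real.log (t + 1) := h1
    _ ≤ C * (2 * Real.log T) := by gcongr
    _ = _ := by ring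

/-- the number variance -/
noncomputable def Va (T a : ℝ) : ℝ :=
  1 / T * ∫ t in (0 : ℝ)..T, ((Nint t (2 * Real.pi * a / Real.log T) : ℝ) - a) ^ 2

lemma sq_ii {f : ℝ → ℝ} {a b : ℝ} (h : ∃ (S : Finset ℂ) (c : ℂ → ℝ) (u v : ℂ → ℝ) (k : ℝ),
    f = fun t => (∑ s ∈ S, c s * (Ico (u s) (v s)).indicator (fun _ => (1 : ℝ)) t) - k) :
    IntervalIntegrable (fun t => f t ^ 2) volume a b := by
  obtain ⟨S, c, u, v, k, rfl⟩ := h
  have hm : Measurable fun t => (∑ s ∈ S, c s * (Ico (u s) (v s)).indicator (fun _ => (1 : ℝ)) t) - k := by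
    refine Measurable.sub ?_ measurable_const
    exact Finset.measurable_sum _ fun s _ => (measurable_const.indicator measurableSet_Ico).const_mul _
  have hb : ∀ t, |(∑ s ∈ S, c s * (Ico (u s) (v s)).indicator (fun _ => (1 : ℝ)) t) - k| ≤
      (∑ s ∈ S, |c s|) + |k| := by
    intro t
    refine (abs_sub _ _).trans ?_
    refine add_le_add ((Finset.abs_sum_le_sum_abs _ _).trans ?_) le_rfl
    refine Finset.sum_le_sum fun s _ => ?_
    rw [abs_mul]
    have : |(Ico (u s) (v s)).indicator (fun _ => (1 : ℝ)) t| ≤ 1 := by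
      by_cases h6 : t ∈ Ico (u s) (v s)
      · rw [indicator_of_mem h6]; simp
      · rw [indicator_of_notMem h6]; simp
    calc _ ≤ |c s| * 1 := mul_le_mul_of_nonneg_left this (abs_nonneg _)
      _ = _ := mul_one _
  rw [intervalIntegrable_iff]
  have hfm : IsFiniteMeasure (volume.restrict (uIoc a b)) := by
    constructor
    rw [Measure.restrict_apply_univ]
    exact measure_Ioc_lt_top
  refine Integrable.of_bound (C := ((∑ s ∈ S, |c s|) + |k|) ^ 2) (hm.pow_const 2).aestronglyMeasurable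
    (ae_of_all _ fun t => ?_)
  rw [norm_pow, Real.norm_eq_abs]
  exact pow_le_pow_left₀ (abs_nonneg _) (hb t) 2

theorem var_lim {a : ℝ} (ha : 0 < a) : ∀ᶠ T in atTop,
    |Va T a - (a * (∫ x, tt a x ∂(Mp T)) - a ^ 2)| ≤ 1 := by
  classical
  obtain ⟨g, hg, hgap, -⟩ := gap0
  obtain ⟨C1, T1, hC1, hT1, hN⟩ := Pool.Agent.W54.TCF.NT_asymp
  obtain ⟨C2, hC2, hle⟩ := nn_le
  have hpi := Real.pi_pos
  have hlim : Tendsto (fun T : ℝ => 2 * (C2 * Real.log T + a) ^ 2 / T) atTop (𝓝 0) := by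
    have h1 : Tendsto (fun T : ℝ => Real.log T ^ 2 / T) atTop (𝓝 0) := by
      have := (isLittleO_log_rpow_rpow_atTop (2 : ℝ) (one_pos)).tendsto_div_nhds_zero
      refine this.congr' ?_
      filter_upwards [eventually_gt_atTop 1] with T hT
      rw [Real.rpow_one]
      congr 1
      exact_mod_cast Real.rpow_natCast (Real.log T) 2
    have h2 : Tendsto (fun T : ℝ => Real.log T / T) atTop (𝓝 0) := by
      have := (isLittleO_log_rpow_atTop (one_pos)).tendsto_div_nhds_zero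
      refine this.congr' ?_
      filter_upwards [eventually_gt_atTop 1] with T hT
      rw [Real.rpow_one]
    have h3 : Tendsto (fun T : ℝ => 1 / T) atTop (𝓝 0) := by
      simpa [one_div] using tendsto_inv_atTop_zero
    have h4 := ((h1.const_mul (2 * C2 ^ 2)).add (h2.const_mul (4 * C2 * a))).add
      (h3.const_mul (2 * a ^ 2))
    simp only [mul_zero, add_zero] at h4
    refine h4.congr fun T => ?_
    ring
  filter_upwards [eventually_ge_atTop 10, eventually_ge_atTop T1,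
    Real.tendsto_log_atTop.eventually_ge_atTop (2 * Real.pi * a / g),
    Real.tendsto_log_atTop.eventually_ge_atTop (2 * Real.pi * a),
    Real.tendsto_log_atTop.eventually_ge_atTop (8 * Real.pi * a ^ 2 * C1 + 1),
    hlim.eventually (ge_mem_nhds (show (0 : ℝ) < 1 / 2 by norm_num))]
    with T hT hT1' hLg hL1 hLC hTs
  have hL : 0 < Real.log T := Real.log_pos (by linarith)
  have hn := nT_pos hT
  have hTp : 0 < T := by linarith
  obtain ⟨h, hh⟩ : ∃ h : ℝ, h = 2 * Real.pi * a / Real.log T := ⟨_, rfl⟩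
  have hh0 : 0 < h := by rw [hh]; positivity
  have hh1 : h ≤ 1 := by rw [hh, div_le_one hL]; exact hL1
  have hhg : h ≤ g := by
    rw [hh, div_le_iff₀ hL]
    rw [div_le_iff₀ hg] at hLg
    linarith
  -- the two counting functions
  have hA : Va T a = 1 / T * ∫ t in (0 : ℝ)..T, (nn (T + 1) h t - a) ^ 2 := by
    unfold Va
    rw [← hh]
    congr 1
    refine intervalIntegral.integral_congr fun t ht => ?_
    rw [uIcc_of_le hTp.le] at ht
    rw [Nint_eq ht.1 (U := T + 1) (by linarith [ht.2])]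
  have hsame : ∀ t, 0 ≤ t → t ≤ T - h → nn (T + 1) h t = nn T h t := by
    intro t ht1 ht2
    rw [← Nint_eq (U := T + 1) ht1 (by linarith), ← Nint_eq (U := T) ht1 (by linarith)]
  have i1 : ∀ U a' b' : ℝ, IntervalIntegrable (fun t => (nn U h t - a) ^ 2) volume a' b' := fun U a' b' =>
    sq_ii ⟨ZZ U, mm, fun s => s.im - h, fun s => s.im, a, rfl⟩
  have hdiff : |(∫ t in (0 : ℝ)..T, (nn (T + 1) h t - a) ^ 2) -
      ∫ t in (0 : ℝ)..T, (nn T h t - a) ^ 2| ≤ 2 * (C2 * Real.log T + a) ^ 2 * h := by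
    have e1 : ∀ U : ℝ, ∫ t in (0 : ℝ)..T, (nn U h t - a) ^ 2 =
        (∫ t in (0 : ℝ)..(T - h), (nn U h t - a) ^ 2) + ∫ t in (T - h)..T, (nn U h t - a) ^ 2 :=
      fun U => (intervalIntegral.integral_add_adjacent_intervals (i1 U _ _) (i1 U _ _)).symm
    have e2 : ∫ t in (0 : ℝ)..(T - h), (nn (T + 1) h t - a) ^ 2 =
        ∫ t in (0 : ℝ)..(T - h), (nn T h t - a) ^ 2 := by
      refine intervalIntegral.integral_congr fun t ht => ?_
      rw [uIcc_of_le (by linarith)] at ht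
      rw [hsame t ht.1 ht.2]
    rw [e1 (T + 1), e1 T, e2, add_sub_add_left_eq_sub, ← intervalIntegral.integral_sub (i1 _ _ _)
      (i1 _ _ _)]
    have hb := intervalIntegral.norm_integral_le_of_norm_le_const (a := T - h) (b := T)
      (C := 2 * (C2 * Real.log T + a) ^ 2)
      (f := fun t => (nn (T + 1) h t - a) ^ 2 - (nn T h t - a) ^ 2) (fun t ht => by
        rw [uIoc_of_le (by linarith)] at ht
        have p1 := hle T hT t h (by linarith [ht.1]) ht.2 hh0.le hh1 (T + 1) le_rfl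
        have p2 := hle T hT t h (by linarith [ht.1]) ht.2 hh0.le hh1 T (by linarith)
        have p3 := nn_nonneg (T + 1) h t
        have p4 := nn_nonneg T h t
        have hCL : 0 ≤ C2 * Real.log T := by positivity
        have q1 : (nn (T + 1) h t - a) ^ 2 ≤ (C2 * Real.log T + a) ^ 2 := by
          apply sq_le_sq'
          · linarith
          · linarith
        have q2 : (nn T h t - a) ^ 2 ≤ (C2 * Real.log T + a) ^ 2 := by
          apply sq_le_sq'
          · linarith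
          · linarith
        rw [Real.norm_eq_abs, abs_le]
        have r1 := sq_nonneg (nn (T + 1) h t - a)
        have r2 := sq_nonneg (nn T h t - a)
        have r3 := sq_nonneg (C2 * Real.log T + a)
        constructor <;> linarith)
    rw [Real.norm_eq_abs, show T - (T - h) = h by ring, abs_of_pos hh0] at hb
    exact hb
  -- the main term
  have hmain : ∫ t in (0 : ℝ)..T, (nn T h t - a) ^ 2 =
      h * (nT T * ∫ x, tt a x ∂(Mp T)) - 2 * a * (h * ∑ s ∈ ZZ T, mm s) + a ^ 2 * T := by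
    have e1 := nn_sq hT ha hgap (hh ▸ hhg)
    rw [← hh] at e1
    rw [← e1, ← nn_int hTp.le hh0.le hgap hhg]
    have e2 : ∀ t, (nn T h t - a) ^ 2 = nn T h t ^ 2 - 2 * a * nn T h t + a ^ 2 := fun t => by ring
    simp_rw [e2]
    have j1 : IntervalIntegrable (fun t => nn T h t ^ 2) volume 0 T :=
      sq_ii ⟨ZZ T, mm, fun s => s.im - h, fun s => s.im, 0, by funext t; unfold nn; rw [sub_zero]⟩
    have j2 : IntervalIntegrable (fun t => 2 * a * nn T h t) volume 0 T := (nn_ii _ _ _ _).const_mul _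
    rw [intervalIntegral.integral_add (j1.sub j2) (by simp), intervalIntegral.integral_sub j1 j2,
      intervalIntegral.integral_const_mul, intervalIntegral.integral_const, smul_eq_mul, sub_zero]
    ring
  have hNT : ∑ s ∈ ZZ T, mm s = (NN riemannZeta 0 T : ℝ) := by
    rw [ZZ_eq]
    exact Pool.Agent.Y744.sum_Zt T
  have hN1 := hN T hT1'
  rw [← hNT] at hN1
  obtain ⟨N, hNd⟩ : ∃ N : ℝ, N = ∑ s ∈ ZZ T, mm s := ⟨_, rfl⟩
  obtain ⟨W, hW⟩ : ∃ W : ℝ, W = ∫ x, tt a x ∂(Mp T) := ⟨_, rfl⟩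
  obtain ⟨I1, hI1⟩ : ∃ I : ℝ, I = ∫ t in (0 : ℝ)..T, (nn (T + 1) h t - a) ^ 2 := ⟨_, rfl⟩
  obtain ⟨I2, hI2⟩ : ∃ I : ℝ, I = ∫ t in (0 : ℝ)..T, (nn T h t - a) ^ 2 := ⟨_, rfl⟩
  rw [← hNd] at hN1 hmain
  rw [← hW] at hmain ⊢
  rw [← hI1, ← hI2] at hdiff
  rw [← hI2] at hmain
  rw [hA, ← hI1]
  have hhn : h * nT T = a * T := by
    rw [hh]; unfold nT
    field_simp
  have e5 : 1 / T * I1 - (a * W - a ^ 2) = (I1 - I2) / T -
      2 * a * (h * (N - T * Real.log T / (2 * Real.pi)) / T) := by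
    have e6 : I2 = a * T * W - 2 * a * (h * N) + a ^ 2 * T := by
      rw [hmain, ← mul_assoc, hhn]
    have e7 : h * (T * Real.log T / (2 * Real.pi)) = a * T := hhn
    have e8 : h * (N - T * Real.log T / (2 * Real.pi)) = h * N - a * T := by rw [mul_sub, e7]
    rw [e8, e6]
    field_simp
    ring
  rw [e5]
  refine (abs_sub _ _).trans ?_
  have b1 : |(I1 - I2) / T| ≤ 1 / 2 := by
    rw [abs_div, abs_of_pos hTp]
    have : |I1 - I2| / T ≤ 2 * (C2 * Real.log T + a) ^ 2 / T := by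
      apply div_le_div_of_nonneg_right _ hTp.le
      refine hdiff.trans ?_
      have : 0 ≤ 2 * (C2 * Real.log T + a) ^ 2 := by positivity
      nlinarith
    linarith
  have b2 : |2 * a * (h * (N - T * Real.log T / (2 * Real.pi)) / T)| ≤ 1 / 2 := by
    rw [abs_mul (2 * a), abs_div, abs_mul h, abs_of_pos hTp, abs_of_pos hh0,
      abs_of_pos (show 0 < 2 * a by positivity)]
    have c1 : h * |N - T * Real.log T / (2 * Real.pi)| / T ≤ h * C1 := by
      rw [div_le_iff₀ hTp, mul_assoc]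
      exact mul_le_mul_of_nonneg_left hN1 hh0.le
    have c2 : 2 * a * (h * C1) ≤ 1 / 2 := by
      rw [hh]
      have : 2 * a * (2 * Real.pi * a / Real.log T * C1) = 4 * Real.pi * a ^ 2 * C1 / Real.log T := by
        ring
      rw [this, div_le_iff₀ hL]
      linarith
    calc _ ≤ 2 * a * (h * C1) := by gcongr
      _ ≤ _ := c2
  linarith

/-- **the number variance** -/
theorem var_main : ∃ C : ℝ, 0 < C ∧ ∀ a : ℝ, 1 ≤ a → ∃ T0 : ℝ, ∀ T : ℝ, T0 ≤ T →
    |Va T a - 1 / Real.pi ^ 2 * Real.log a| ≤ C := by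
  obtain ⟨C, hC, h⟩ := pairs_main
  refine ⟨C + 4, by linarith, fun a ha => ?_⟩
  have ha0 : 0 < a := by linarith
  have h1 : ∀ᶠ T : ℝ in atTop, |Va T a - 1 / Real.pi ^ 2 * Real.log a| ≤ C + 4 := by
    filter_upwards [h a ha0, var_lim ha0] with T h2 h3
    have h4 := h2.2
    have h5 := GV_log ha
    unfold GV at h5
    have h6 : |a * (∫ x, tt a x ∂(Mp T)) - a * ∫ x, tt a x ∂mG| ≤ C := by
      rw [← mul_sub, abs_mul, abs_of_pos ha0]
      calc a * |∫ x, tt a x ∂(Mp T) - ∫ x, tt a x ∂mG| ≤ a * (C / a) := by gcongr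
        _ = C := by field_simp
    have e : Va T a - 1 / Real.pi ^ 2 * Real.log a =
        (Va T a - (a * (∫ x, tt a x ∂(Mp T)) - a ^ 2)) +
        ((a * (∫ x, tt a x ∂(Mp T)) - a * ∫ x, tt a x ∂mG) +
        (a * (∫ x, tt a x ∂mG) - a ^ 2 - 1 / Real.pi ^ 2 * Real.log a)) := by ring
    rw [e]
    refine (abs_add_le _ _).trans ?_
    refine (add_le_add le_rfl (abs_add_le _ _)).trans ?_
    linarith
  exact h1.exists_forall_of_atTop

end Pool.Agent.D0H51.BD
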