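import Pool.Agent.D0H51.BD.Main1
import Pool.Agent.Y749.Rig.FFc

/-! # The pair counting functions of the ordinates as finite sums -/

set_option autoImplicit false

open MeasureTheory Set Filter Topology

namespace Pool.Agent.D0H51.BD

open Pool.Agent.Y749.Rig
open H370 (Zf mult good_zeta mem_Zf NN zset)

/-- the nontrivial zeros -/
def NT : Set ℂ := {s : ℂ | riemannZeta s = 0 ∧ 0 < s.re ∧ s.re < 1}

/-- multiplicity -/
noncomputable def zm (s : ℂ) : ℕ := analyticOrderNatAt riemannZeta s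

lemma zm_mm (s : ℂ) : ((zm s : ℕ) : ℝ) = mm s := rfl

/-- there are no zeros with small ordinate -/
lemma gap0 : ∃ g : ℝ, 0 < g ∧ (∀ s ∈ NT, 0 ≤ s.im → g ≤ s.im) ∧ (∀ s ∈ NT, s.im ≤ 0 → s.im ≤ -g) := by
  have h1 : ∃ g : ℝ, 0 < g ∧ g ≤ 1 ∧ ∀ s ∈ zs 1, g ≤ s.im := by
    have hf := zs_finite 1
    have h2 : ∀ S : Set ℂ, S.Finite → S ⊆ zs 1 → ∃ g : ℝ, 0 < g ∧ g ≤ 1 ∧ ∀ s ∈ S, g ≤ s.im := by
      intro S hS
      induction S, hS using Set.Finite.induction_on with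
      | empty => intro _; exact ⟨1, one_pos, le_rfl, fun s hs => absurd hs (notMem_empty s)⟩
      | @insert a S ha hS ih =>
        intro hsub
        obtain ⟨g, hg, hg1, h⟩ := ih ((subset_insert _ _).trans hsub)
        have ha2 := zs_im_pos (hsub (mem_insert a S))
        refine ⟨min g a.im, lt_min hg ha2, (min_le_left _ _).trans hg1, fun s hs => ?_⟩
        rcases hs with hs | hs
        · rw [hs]; exact min_le_right _ _
        · exact (min_le_left _ _).trans (h s hs)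
    exact h2 _ hf le_rfl
  obtain ⟨g, hg, hg1, h⟩ := h1
  have key : ∀ s ∈ NT, 0 ≤ s.im → g ≤ s.im := by
    rintro s ⟨h1, h2, h3⟩ h4
    rcases le_or_gt s.im 1 with h5 | h5
    · exact h s ⟨h1, h2, h3, h4, h5⟩
    · linarith
  refine ⟨g, hg, key, ?_⟩
  rintro s ⟨h1, h2, h3⟩ h4
  have h5 : (starRingEnd ℂ) s ∈ NT := by
    refine ⟨?_, ?_, ?_⟩
    · rw [riemannZeta_conj, h1, map_zero]
    · simpa using h2
    · simpa using h3
  have h6 := key _ h5 (by simpa using h4)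
  rw [Complex.conj_im] at h6
  linarith

/-- pairs with difference in a set -/
lemma pair_eq {T : ℝ} (hT : 10 ≤ T) {S : Set ℝ} (hS : MeasurableSet S) {Q : Set (ℂ × ℂ)}
    (hQ : ∀ p : ℂ × ℂ, p ∈ Q ↔ p.1 ∈ zs T ∧ p.2 ∈ zs T ∧
      (p.1.im - p.2.im) * Real.log T / (2 * Real.pi) ∈ S) :
    ((∑ᶠ p ∈ Q, zm p.1 * zm p.2 : ℕ) : ℝ) = nT T * (Mp T).real S := by
  classical
  have hn := nT_pos hT
  have e1 : Q = ↑(((ZZ T) ×ˢ (ZZ T)).filter
      (fun p : ℂ × ℂ => (p.1.im - p.2.im) * Real.log T / (2 * Real.pi) ∈ S)) := by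
    ext p
    rw [hQ, Finset.coe_filter, mem_ofPred_eq, Finset.mem_product, mem_ZZ, mem_ZZ, and_assoc]
  rw [e1, finsum_mem_coe_finset, Mp_real hT hS]
  unfold RR
  rw [mul_div_cancel₀ _ hn.ne', Finset.sum_filter, Finset.sum_product]
  push_cast
  refine Finset.sum_congr rfl fun s _ => Finset.sum_congr rfl fun s' _ => ?_
  by_cases h : (s.im - s'.im) * Real.log T / (2 * Real.pi) ∈ S
  · rw [if_pos h, indicator_of_mem h, mul_one]
    rfl
  · rw [if_neg h, indicator_of_notMem h, mul_zero]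

/-- the pair counting function of the problem -/
noncomputable def Nst (T a : ℝ) : ℕ :=
  ∑ᶠ p ∈ {p : ℂ × ℂ | p.1 ∈ NT ∧ p.2 ∈ NT ∧ 0 < p.1.im ∧ p.1.im ≤ T ∧
    0 < p.1.im - p.2.im ∧ p.1.im - p.2.im ≤ 2 * Real.pi * a / Real.log T}, zm p.1 * zm p.2

/-- the pairs of equal ordinates -/
noncomputable def Ne (T : ℝ) : ℕ :=
  ∑ᶠ p ∈ {p : ℂ × ℂ | p.1 ∈ NT ∧ p.2 ∈ NT ∧ 0 < p.1.im ∧ p.1.im ≤ T ∧
    p.1.im = p.2.im}, zm p.1 * zm p.2

lemma Ne_eq {T : ℝ} (hT : 10 ≤ T) : (Ne T : ℝ) = nT T * (Mp T).real {0} := by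
  unfold Ne
  refine pair_eq hT (measurableSet_singleton _) fun p => ?_
  have hL : 0 < Real.log T := Real.log_pos (by linarith)
  have hpi := Real.pi_pos
  have h0 : (p.1.im - p.2.im) * Real.log T / (2 * Real.pi) ∈ ({0} : Set ℝ) ↔ p.1.im = p.2.im := by
    rw [mem_singleton_iff, div_eq_zero_iff, mul_eq_zero]
    constructor
    · rintro ((h | h) | h)
      · linarith
      · linarith
      · linarith
    · intro h
      left; left; linarith
  rw [h0]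
  constructor
  · rintro ⟨⟨a1, a2, a3⟩, ⟨b1, b2, b3⟩, h1, h2, h3⟩
    exact ⟨⟨a1, a2, a3, h1.le, h2⟩, ⟨b1, b2, b3, by linarith, by linarith⟩, h3⟩
  · rintro ⟨ha, hb, h3⟩
    have := zs_im_pos ha
    obtain ⟨a1, a2, a3, a4, a5⟩ := ha
    obtain ⟨b1, b2, b3, b4, b5⟩ := hb
    exact ⟨⟨a1, a2, a3⟩, ⟨b1, b2, b3⟩, this, a5, h3⟩

lemma Nst_eq (a : ℝ) : ∀ᶠ T in atTop, ∀ u : ℝ, u ≤ a →
    (Nst T u : ℝ) = nT T * (Mp T).real (Ioc 0 u) := by
  obtain ⟨g, hg, -, hgap⟩ := gap0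
  have hpi := Real.pi_pos
  filter_upwards [eventually_ge_atTop 10,
    Real.tendsto_log_atTop.eventually_gt_atTop (2 * Real.pi * a / g)] with T hT hLa u hu
  have hL : 0 < Real.log T := Real.log_pos (by linarith)
  have h1 : 2 * Real.pi * u / Real.log T < g := by
    rw [div_lt_iff₀ hg] at hLa
    rw [div_lt_iff₀ hL]
    nlinarith
  unfold Nst
  refine pair_eq hT measurableSet_Ioc fun p => ?_
  have h0 : (p.1.im - p.2.im) * Real.log T / (2 * Real.pi) ∈ Ioc 0 u ↔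
      0 < p.1.im - p.2.im ∧ p.1.im - p.2.im ≤ 2 * Real.pi * u / Real.log T := by
    rw [mem_Ioc, div_le_iff₀ (by positivity), le_div_iff₀ hL]
    constructor
    · rintro ⟨h2, h3⟩
      refine ⟨?_, by linarith⟩
      by_contra hcon
      push Not at hcon
      have : (p.1.im - p.2.im) * Real.log T / (2 * Real.pi) ≤ 0 :=
        div_nonpos_of_nonpos_of_nonneg (mul_nonpos_of_nonpos_of_nonneg hcon hL.le) (by positivity)
      linarith
    · rintro ⟨h2, h3⟩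
      exact ⟨by positivity, by linarith⟩
  rw [h0]
  constructor
  · rintro ⟨⟨a1, a2, a3⟩, ⟨b1, b2, b3⟩, h2, h3, h4, h5⟩
    refine ⟨⟨a1, a2, a3, h2.le, h3⟩, ⟨b1, b2, b3, ?_, by linarith⟩, h4, h5⟩
    by_contra hcon
    push Not at hcon
    have := hgap p.2 ⟨b1, b2, b3⟩ hcon.le
    linarith
  · rintro ⟨ha, hb, h4, h5⟩
    have := zs_im_pos ha
    obtain ⟨a1, a2, a3, a4, a5⟩ := ha
    obtain ⟨b1, b2, b3, b4, b5⟩ := hb
    exact ⟨⟨a1, a2, a3⟩, ⟨b1, b2, b3⟩, this, a5, h4, h5⟩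

/-- the predicted value -/
noncomputable def Pr (a : ℝ) : ℝ :=
  ∫ u in (0 : ℝ)..a, (1 - (Real.sin (Real.pi * u) / (Real.pi * u)) ^ 2)

lemma Pr_eq (a : ℝ) : Pr a = PP a := rfl

/-- **the two bounds** -/
theorem main12 : ∃ C : ℝ, 0 < C ∧ ∀ a : ℝ, 0 < a → ∃ T0 : ℝ, ∀ T : ℝ, T0 ≤ T →
    |(Nst T a : ℝ) / (T * Real.log T / (2 * Real.pi)) - Pr a| ≤ C ∧
    |1 / a * (∫ u in (0 : ℝ)..a, ((Nst T u : ℝ) / (T * Real.log T / (2 * Real.pi)) - Pr u)) +
      ((Ne T : ℝ) / (T * Real.log T / (2 * Real.pi)) - 1) / 2| ≤ C / a := by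
  obtain ⟨C, hC, h⟩ := pos_main
  refine ⟨C, hC, fun a ha => ?_⟩
  have h2 : ∀ᶠ T : ℝ in atTop,
    |(Nst T a : ℝ) / (T * Real.log T / (2 * Real.pi)) - Pr a| ≤ C ∧
    |1 / a * (∫ u in (0 : ℝ)..a, ((Nst T u : ℝ) / (T * Real.log T / (2 * Real.pi)) - Pr u)) +
      ((Ne T : ℝ) / (T * Real.log T / (2 * Real.pi)) - 1) / 2| ≤ C / a := by
    filter_upwards [h a ha, Nst_eq a, eventually_ge_atTop 10] with T h1 h2 hT
    have hn := nT_pos hT
    have e0 : T * Real.log T / (2 * Real.pi) = nT T := rfl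
    have e1 : ∀ u : ℝ, u ≤ a → (Nst T u : ℝ) / nT T = (Mp T).real (Ioc 0 u) := by
      intro u hu
      rw [h2 u hu, mul_div_cancel_left₀ _ hn.ne']
    rw [e0, e1 a le_rfl, Ne_eq hT, mul_div_cancel_left₀ _ hn.ne']
    refine ⟨h1.1, ?_⟩
    have e2 : ∫ u in (0 : ℝ)..a, ((Nst T u : ℝ) / nT T - Pr u) =
        ∫ u in (0 : ℝ)..a, ((Mp T).real (Ioc 0 u) - PP u) := by
      refine intervalIntegral.integral_congr fun u hu => ?_
      rw [uIcc_of_le ha.le] at hu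
      rw [e1 u hu.2, Pr_eq]
    rw [e2]
    exact h1.2
  exact h2.exists_forall_of_atTop

end Pool.Agent.D0H51.BD
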